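import Pool.Agent.HW71.Defs

/-!
# HW71/DefsC : vertices anchored at a core (MP_522b4f_co)

Throughout `w = k - 1`.
-/

namespace HW71

open HJ71

/-- `v` is `p`-anchored at the set `R`: some set `B` of at most `p` vertices, which contains `v` and `R`, has this property:
for every preorder `le` on `B` such that `x ≤ y` for no arc `x y` and such that no `w + 1` elements of `B` are pairwise
incomparable, and every list `r` of `w` pairwise incomparable elements of `R`, `v` is incomparable to all but one of the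
`r c` -/
def AnchoredC (w : ℕ) (D : Dig) (R : Finset D.V) (p : ℕ) (v : D.V) : Prop :=
  ∃ B : Finset D.V, B.card ≤ p ∧ v ∈ B ∧ (∀ x ∈ R, x ∈ B) ∧
    ∀ le : D.V → D.V → Prop, (∀ x ∈ B, le x x) →
      (∀ x ∈ B, ∀ y ∈ B, ∀ z ∈ B, le x y → le y z → le x z) →
      (∀ x ∈ B, ∀ y ∈ B, D.adj x y → ¬ le x y) →
      (¬ ∃ f : Fin (w + 1) → D.V, (∀ i, f i ∈ B) ∧ ∀ i j, i ≠ j → ¬ le (f i) (f j)) →
      ∀ r : Fin w → D.V, (∀ c, r c ∈ R) → (∀ c c', c ≠ c' → ¬ le (r c) (r c')) →
      ∃ c, ∀ c', c' ≠ c → ¬ le v (r c') ∧ ¬ le (r c') v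

/-- the vertex `v` is anchored at the set `R`: (1) it has an arc to all but at most one and an arc from all but at most one
vertex of `R`, or (2) it is inside a frame together with all vertices of `R`, or (3) it is `p`-anchored at `R` -/
def AnchoredAtC (w : ℕ) (D : Dig) (R : Finset D.V) (p : ℕ) (v : D.V) : Prop :=
  (∃ a b, (∀ x ∈ R, x ≠ a → D.adj v x) ∧ ∀ x ∈ R, x ≠ b → D.adj x v) ∨
    (∃ t s : Fin w → D.V, Fra D.adj t s ∧ Ins D.adj t s v ∧ ∀ x ∈ R, Ins D.adj t s x) ∨
    AnchoredC w D R p v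

end HW71
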