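import Pool.Agent.HW71.Stage
import Pool.Agent.HW71.DefsC

/-!
# HW71/Core : a bounded core of dichromatic number `k - 1` instead of a clique
-/

namespace HW71

open HJ71 HM71

variable {w : ℕ}

theorem Fra.le {V : Type} {adj adj' : V → V → Prop} {t s : Fin w → V} (h : Fra adj t s)
    (ha : ∀ x y, adj x y → adj' x y) : Fra adj' t s :=
  ⟨fun c c' hc => ha _ _ (h.tt c c' hc), fun c c' hc => ha _ _ (h.ss c c' hc),
    fun c c' hc => ha _ _ (h.st c c' hc), fun c c' hc => ha _ _ (h.ts c c' hc)⟩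

theorem Ins.le {V : Type} {adj adj' : V → V → Prop} {t s : Fin w → V} {x : V}
    (h : Ins adj t s x) (ha : ∀ x y, adj x y → adj' x y) : Ins adj' t s x := by
  rcases h with h | h | h
  · exact Or.inl h
  · exact Or.inr (Or.inl h)
  · exact Or.inr (Or.inr fun c => ⟨ha _ _ (h c).1, ha _ _ (h c).2⟩)

theorem AnchoredAtC.sa {D : Dig} {R : Finset D.V} {p : ℕ} {v : D.V} (h : AnchoredAtC w D R p v)
    (hw : 0 < w) {Y0 : D.V → D.V → Prop} (hY0 : ∀ x y, D.adj x y → Y0 x y)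
    (hirr : ∀ x ∈ R, ¬ Y0 x x) {r : Fin w → D.V} (hr : ∀ c, r c ∈ R)
    (hrr : ∀ c c', c ≠ c' → Y0 (r c) (r c')) : SA Y0 r (p + (3 * w + 1)) v := by
  classical
  have hinj : ∀ c c', r c = r c' → c = c' := fun c c' h => by
    by_contra hne
    have := hrr c c' hne
    rw [h] at this
    exact hirr _ (hr c') this
  have hidx : ∀ a : D.V, ∃ c0 : Fin w, ∀ c, c ≠ c0 → r c ≠ a := by
    intro a
    by_cases ha : ∃ c0, r c0 = a
    · obtain ⟨c0, rfl⟩ := ha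
      exact ⟨c0, fun c hc h => hc (hinj _ _ h)⟩
    · exact ⟨⟨0, hw⟩, fun c _ h => ha ⟨c, h⟩⟩
  rcases h with ⟨a, b, h1, h2⟩ | ⟨t, s, hF, hv, hR⟩ | ⟨B, h1, h2, h3, h4⟩
  · obtain ⟨a', ha'⟩ := hidx a
    obtain ⟨b', hb'⟩ := hidx b
    exact (SA.near (a := a') (b := b') (fun c hc => hY0 _ _ (h1 _ (hr c) (ha' c hc)))
      (fun c hc => hY0 _ _ (h2 _ (hr c) (hb' c hc))) hrr).mono (by omega)
  · exact (SA.base (hF.le hY0) (hv.le hY0) (fun c => (hR _ (hr c)).le hY0) hrr).mono (by omega)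
  · have hs : SA Y0 r p v := by
      refine ⟨B, h1, h2, fun c => h3 _ (hr c), fun W e M Y hM hY hP hf => ?_⟩
      obtain ⟨c, hc⟩ := h4 (fun x y => ¬ Y (e x) (e y)) (fun x hx => hP.1 _ (hM x hx))
        (fun x hx y hy z hz => hP.2 _ (hM x hx) _ (hM y hy) _ (hM z hz))
        (fun x _ y _ hxy hn => hn (hY x y (hY0 x y hxy))) (by
          rintro ⟨f, hf1, hf2⟩
          exact hf ⟨fun i => e (f i), fun i => hM _ (hf1 i), fun i j hij =>
            not_not.1 (hf2 i j hij)⟩)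
        r hr (fun c c' hcc hn => hn (hY _ _ (hrr c c' hcc)))
      exact ⟨c, hM _ h2, fun c' hc' => ⟨not_not.1 (hc c' hc').1, not_not.1 (hc c' hc').2⟩⟩
    exact hs.mono (by omega)

theorem nocycle {V : Type} {M : Finset V} {Y : V → V → Prop} {n : ℕ} {f : V → Fin n}
    (hP : PreOn M Y) (hf : ∀ x ∈ M, ∀ y ∈ M, f x = f y → ¬ Y x y ∨ ¬ Y y x) {x : V}
    (hx : Relation.TransGen (fun x y => x ∈ M ∧ y ∈ M ∧ Y x y ∧ f x = f y) x x) : False := by
  have one : ∀ {x y : V}, (x ∈ M ∧ y ∈ M ∧ Y x y ∧ f x = f y) → ¬ Y y x := fun {x y} h =>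
    (hf _ h.1 _ h.2.1 h.2.2.2).resolve_left (not_not.2 h.2.2.1)
  have key : ∀ {x y : V}, Relation.TransGen
      (fun x y => x ∈ M ∧ y ∈ M ∧ Y x y ∧ f x = f y) x y → ¬ Y y x ∧ x ∈ M ∧ y ∈ M := by
    intro x y hxy
    induction hxy with
    | single h1 => exact ⟨one h1, h1.1, h1.2.1⟩
    | tail _ h1 ih => exact ⟨hP.2 _ h1.2.1 _ h1.1 _ ih.2.1 (one h1) ih.1, ih.2.1, h1.2.1⟩
  obtain ⟨y, h1, h2⟩ := Relation.TransGen.head'_iff.1 hx
  rcases Relation.reflTransGen_iff_eq_or_transGen.1 h2 with h3 | h3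
  · rw [h3] at h1
    exact hP.1 _ h1.1 h1.2.2.1
  · exact (key h3).1 h1.2.2.1

theorem nocol_of {D : Dig} {S : Set D.V} {w : ℕ} (h : ¬ Dicolorable (ind D S) w) :
    NoCol w D.adj S := by
  intro ω
  by_contra hne
  refine h ⟨fun x => ω x.1, fun i hi => hne ?_⟩
  obtain ⟨x, hx⟩ := hi
  exact ⟨x.1, Relation.TransGen.lift (fun z : (ind D S).V => z.1) (fun a b h =>
    ⟨a.2, b.2, h.2.2, h.1.trans h.2.1.symm⟩) _ _ hx⟩

open Classical in
theorem core_der (hw : 3 ≤ w) {p b : ℕ} (D : Dig) [Fintype D.V] (R E : Finset D.V)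
    (hR : R.card ≤ p) (hcore : ¬ Dicolorable (ind D (R : Set D.V)) (w - 1)) (hE : E.card ≤ b)
    (hD : ¬ Dicolorable (ind D ({v | AnchoredAtC w D R p v} ∪ (E : Set D.V))) w) {l : List Dig}
    (hb : Bas (w + 1) l) :
    Der (w + 1) (2 ^ (p * p) * (QE w b (p + (3 * w + 1)) (Fintype.card D.V) + 5)) l D.adj := by
  let A : Finset D.V := Finset.univ.filter fun v => AnchoredAtC w D R p v
  have hS : ((A ∪ E : Finset D.V) : Set D.V) = {v | AnchoredAtC w D R p v} ∪ (E : Set D.V) := by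
    ext x
    simp [A]
  have hno : NoCol w D.adj ((A ∪ E : Finset D.V) : Set D.V) := by
    rw [hS]
    exact nocol_of hD
  refine (lcl hb D.adj R (c := QE w b (p + (3 * w + 1)) (Fintype.card D.V))
    fun Y0 hY0 hP => ?_).up
    (Nat.mul_le_mul (Nat.pow_le_pow_right (by norm_num) (Nat.mul_le_mul hR hR)) le_rfl)
  by_cases hr : ∃ r : Fin w → D.V, (∀ c, r c ∈ R) ∧ ∀ c c', c ≠ c' → Y0 (r c) (r c')
  · obtain ⟨r, hr, hrr⟩ := hr
    exact coreE hrr hw (by omega)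
      (fun u hu => (Finset.mem_filter.1 hu).2.sa (by omega) hY0 hP.1 hr hrr) hE
      (hno.adj_mono hY0) hb
  · exfalso
    obtain ⟨w', rfl⟩ : ∃ w', w = w' + 1 := ⟨w - 1, by omega⟩
    obtain ⟨f, hf⟩ := chains hP (w := w') hr (by omega)
    refine hcore ⟨fun x => f x.1, fun i hi => ?_⟩
    obtain ⟨x, hx⟩ := hi
    exact nocycle hP hf (x := x.1) (Relation.TransGen.lift
      (fun z : (ind D (R : Set D.V)).V => z.1) (fun a b h =>
        ⟨a.2, b.2, hY0 _ _ h.2.2, h.1.trans h.2.1.symm⟩) _ _ hx)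

theorem arithQ (w b p n : ℕ) (hn : 1 ≤ n) :
    QQ w b p n ≤ (5 * (w * w * (Kc w * 10)) + w * w * (Kd w b p * 5) + 2 ^ (p * p) * 5) *
      n ^ max 3 (b * w) := by
  have h1 : n ^ (b * w) ≤ n ^ max 3 (b * w) := Nat.pow_le_pow_right hn (le_max_right _ _)
  have h3 : n ^ 3 ≤ n ^ max 3 (b * w) := Nat.pow_le_pow_right hn (le_max_left _ _)
  have h2 : n * n ≤ n ^ 3 := by
    calc n * n = n ^ 2 := (pow_two n).symm
      _ ≤ _ := Nat.pow_le_pow_right hn (by norm_num)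
  have h4 : n ≤ n ^ 3 := by
    calc n = n ^ 1 := (pow_one n).symm
      _ ≤ _ := Nat.pow_le_pow_right hn (by norm_num)
  unfold QQ LE
  generalize n ^ max 3 (b * w) = P at h1 h3 ⊢
  generalize n ^ (b * w) = N at h1 ⊢
  generalize w * w * (Kc w * 10) = K1
  generalize Kd w b p * 5 = K2
  generalize 2 ^ (p * p) * 5 = K3
  have a1 : (n + 1) * (n * n * K1) ≤ 2 * (K1 * P) := by
    calc (n + 1) * (n * n * K1) ≤ (2 * n) * (n * n * K1) := Nat.mul_le_mul_right _ (by omega)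
      _ = 2 * (K1 * n ^ 3) := by ring
      _ ≤ _ := Nat.mul_le_mul_left _ (Nat.mul_le_mul_left _ h3)
  have a2 : w * w * N * K2 ≤ w * w * K2 * P := by
    calc w * w * N * K2 = w * w * K2 * N := by ring
      _ ≤ _ := Nat.mul_le_mul_left _ h1
  have a3 : (n * n + N + 1) * K1 ≤ 3 * (K1 * P) := by
    calc (n * n + N + 1) * K1 ≤ (3 * P) * K1 := Nat.mul_le_mul_right _ (by omega)
      _ = _ := by ring
  have a4 : n * K3 ≤ K3 * P := by
    calc n * K3 = K3 * n := Nat.mul_comm _ _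
      _ ≤ _ := Nat.mul_le_mul_left _ (h4.trans h3)
  calc _ ≤ 2 * (K1 * P) + w * w * K2 * P + 3 * (K1 * P) + K3 * P := by
        omega
    _ = _ := by ring

/-- the constant -/
def CE (w b p : ℕ) : ℕ :=
  2 ^ (p * p) * (2 ^ ((b + w) * (b + w)) *
    ((5 * (w * w * (Kc w * 10)) + w * w * (Kd w b (p + (3 * w + 1)) * 5) +
      2 ^ ((p + (3 * w + 1)) * (p + (3 * w + 1))) * 5) * (b * w + 1) ^ b + 5) + 5) + 1

theorem arithE (w b p n : ℕ) (hn : 1 ≤ n) :
    2 ^ (p * p) * (QE w b (p + (3 * w + 1)) n + 5) + n ≤ CE w b p * n ^ max 3 (b * w) := by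
  have h1 := arithQ w b (p + (3 * w + 1)) n hn
  have h2 : n ≤ n ^ max 3 (b * w) := by
    calc n = n ^ 1 := (pow_one _).symm
      _ ≤ _ := Nat.pow_le_pow_right hn (by omega)
  have h3 : 1 ≤ n ^ max 3 (b * w) := hn.trans h2
  unfold QE CE
  generalize QQ w b (p + (3 * w + 1)) n = q at h1 ⊢
  generalize n ^ max 3 (b * w) = P at h1 h2 h3 ⊢
  generalize 5 * (w * w * (Kc w * 10)) + w * w * (Kd w b (p + (3 * w + 1)) * 5) +
      2 ^ ((p + (3 * w + 1)) * (p + (3 * w + 1))) * 5 = K at h1 ⊢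
  generalize (b * w + 1) ^ b = L
  generalize 2 ^ ((b + w) * (b + w)) = T1
  generalize 2 ^ (p * p) = T2
  have s1 : q * L + 5 ≤ (K * L + 5) * P := by
    calc q * L + 5 ≤ K * P * L + 5 * P := Nat.add_le_add (Nat.mul_le_mul_right _ h1) (by omega)
      _ = _ := by ring
  have s2 : T1 * (q * L + 5) + 5 ≤ (T1 * (K * L + 5) + 5) * P := by
    calc T1 * (q * L + 5) + 5 ≤ T1 * ((K * L + 5) * P) + 5 * P :=
          Nat.add_le_add (Nat.mul_le_mul_left _ s1) (by omega)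
      _ = _ := by ring
  calc T2 * (T1 * (q * L + 5) + 5) + n ≤ T2 * ((T1 * (K * L + 5) + 5) * P) + 1 * P :=
        Nat.add_le_add (Nat.mul_le_mul_left _ s2) (by omega)
    _ = _ := by ring

theorem mainC (hw : 3 ≤ w) {p b : ℕ} (D : Dig) (R E : Finset D.V) (hR : R.card ≤ p)
    (hcore : ¬ Dicolorable (ind D (R : Set D.V)) (w - 1)) (hE : E.card ≤ b)
    (hD : ¬ Dicolorable (ind D ({v | AnchoredAtC w D R p v} ∪ (E : Set D.V))) w) :
    ∃ H : Dig, IsSub H D ∧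
      ConstructibleIn (w + 1) (CE w b p * Nat.card D.V ^ max 3 (b * w)) H := by
  classical
  have := D.fin
  have := Fintype.ofFinite D.V
  let T0 : Dig := ⟨Fin (w + 1), inferInstance, fun x y => x ≠ y, fun v h => h rfl⟩
  have hT0 : IsComplete (w + 1) T0 := ⟨by simp [T0], fun _ _ => Iff.rfl⟩
  have hb : Bas (w + 1) [T0] := ⟨T0, List.mem_cons_self, hT0⟩
  obtain ⟨l2, e2, h3⟩ := core_der hw D R E hR hcore hE hD hb [T0] fun T h => h
  obtain ⟨m2, st2, hm2⟩ := e2.2 0 (Steps.base T0 Steps.nil hT0)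
  obtain ⟨T, hT, φ, hφ⟩ := h3
  obtain ⟨e⟩ : Nonempty (D.V ≃ Fin (Nat.card D.V)) := ⟨Finite.equivFin D.V⟩
  obtain ⟨l3, m3, st3, _, hm3, T', hT', ψ, hψ, hψE⟩ := merge_all
    (fun a b => D.adj (e.symm a) (e.symm b)) (fun a => D.irr _) l2 m2 st2 T hT (fun v => e (φ v))
    (fun a b hab => by simpa using hφ a b hab)
  obtain ⟨l4, m4, st4, hm4⟩ := steps_suffix st3 T' hT'
  refine ⟨T', ⟨fun a => e.symm (ψ a), e.symm.injective.comp hψ, fun x y hxy => hψE x y hxy⟩,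
    T', l4, m4, st4, ?_, Equiv.refl _, fun _ _ => Iff.rfl⟩
  have hne : Nonempty D.V := by
    by_contra hne
    rw [not_nonempty_iff] at hne
    exact hcore ⟨fun x => (hne.false x.1).elim, fun i hi => hne.false hi.choose.1⟩
  have hn : 1 ≤ Fintype.card D.V := Fintype.card_pos
  have ha := arithE w b p (Fintype.card D.V) hn
  rw [Nat.card_eq_fintype_card] at hm3 ⊢
  omega

end HW71
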