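import Pool.Agent.HJ71.Defs

/-!
# HW71/Defs : frames and anchored vertices (MP_522b4f_co)

Throughout `w = k - 1`.
-/

namespace HW71

open HJ71

variable {w : ℕ}

/-- `t`, `s` form a frame: `t c` and `t c'`, `s c` and `s c'`, `t c` and `s c'` are joined by both arcs for `c ≠ c'` -/
structure Fra {V : Type} (adj : V → V → Prop) (t s : Fin w → V) : Prop where
  tt : ∀ c c', c ≠ c' → adj (t c) (t c')
  ss : ∀ c c', c ≠ c' → adj (s c) (s c')
  st : ∀ c c', c ≠ c' → adj (s c) (t c')
  ts : ∀ c c', c ≠ c' → adj (t c) (s c')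

/-- `x` is inside the frame: it is one of the `t c`, `s c`, or there are all arcs from the `t c` to `x` and from `x` to the
`s c` -/
def Ins {V : Type} (adj : V → V → Prop) (t s : Fin w → V) (x : V) : Prop :=
  (∃ c, x = t c) ∨ (∃ c, x = s c) ∨ ∀ c, adj (t c) x ∧ adj x (s c)

/-- `v` is `p`-anchored at `r`: some set `B` of at most `p` vertices, which contains `v` and all `r c`, has this property:
for every preorder `le` on `B` such that `x ≤ y` for no arc `x y` and such that no `w + 1` elements of `B` are pairwise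
incomparable, `v` is incomparable to all but one of the `r c` -/
def Anchored (D : Dig) (r : Fin w → D.V) (p : ℕ) (v : D.V) : Prop :=
  ∃ B : Finset D.V, B.card ≤ p ∧ v ∈ B ∧ (∀ c, r c ∈ B) ∧
    ∀ le : D.V → D.V → Prop, (∀ x ∈ B, le x x) →
      (∀ x ∈ B, ∀ y ∈ B, ∀ z ∈ B, le x y → le y z → le x z) →
      (∀ x ∈ B, ∀ y ∈ B, D.adj x y → ¬ le x y) →
      (¬ ∃ f : Fin (w + 1) → D.V, (∀ i, f i ∈ B) ∧ ∀ i j, i ≠ j → ¬ le (f i) (f j)) →
      ∃ c, ∀ c', c' ≠ c → ¬ le v (r c') ∧ ¬ le (r c') v

/-- the vertex `v` is anchored at `r`: (1) it has an arc to all but at most one and an arc from all but at most one of the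
`r c`, or (2) it is inside a frame together with all the `r c`, or (3) it is `p`-anchored at `r` -/
def AnchoredAt (D : Dig) (r : Fin w → D.V) (p : ℕ) (v : D.V) : Prop :=
  (∃ a b, (∀ c, c ≠ a → D.adj v (r c)) ∧ ∀ c, c ≠ b → D.adj (r c) v) ∨
    (∃ t s : Fin w → D.V, Fra D.adj t s ∧ Ins D.adj t s v ∧ ∀ c, Ins D.adj t s (r c)) ∨
    Anchored D r p v

/-- the subdigraph induced by `S` -/
def ind (D : Dig) (S : Set D.V) : Dig where
  V := S
  fin := by
    have := D.fin
    infer_instance
  adj x y := D.adj x y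
  irr x := D.irr x

end HW71
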