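import Mathlib

/-!
# HW71/GL : proper colourings of a power of the complete graph are projections

Greenwell–Lovász: with at least three colours, a map `f` from the functions on a finite set of cells to the colours, which
gives different values to everywhere different functions, is the value at one cell (up to the permutation given by `f` on
constants).
-/

namespace HW71

variable {Cell C : Type}

open Classical in
/-- value `a` on `A`, `b` off `A` -/
noncomputable def mk (A : Set Cell) (a b : C) : Cell → C := fun p => if p ∈ A then a else b

/-- `f` gives `a` to the function with value `a` on `A` and `b` off `A` -/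
def Big (f : (Cell → C) → C) (A : Set Cell) : Prop := ∃ a b, a ≠ b ∧ f (mk A a b) = a

section

variable {f : (Cell → C) → C} (hf : ∀ x y, (∀ p, x p ≠ y p) → f x ≠ f y) (hc : ∀ c, f (fun _ => c) = c)

include hf hc

theorem gl_val (x : Cell → C) : ∃ p, x p = f x := by
  by_contra h
  push Not at h
  exact hf x (fun _ => f x) h (hc _).symm

theorem gl_two (A : Set Cell) (a b : C) : f (mk A a b) = a ∨ f (mk A a b) = b := by
  obtain ⟨p, hp⟩ := gl_val hf hc (mk A a b)
  by_cases h : p ∈ A
  · exact Or.inl (by rw [← hp]; simp [mk, h])
  · exact Or.inr (by rw [← hp]; simp [mk, h])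

theorem gl_step {A : Set Cell} {a b c : C} (hab : a ≠ b) (hca : c ≠ a) (h : f (mk A a b) = a) :
    f (mk A c a) = c := by
  rcases gl_two hf hc A c a with h' | h'
  · exact h'
  · refine absurd (h'.trans h.symm) (hf _ _ fun p => ?_)
    by_cases hp : p ∈ A
    · simpa [mk, hp] using hca
    · simpa [mk, hp] using hab

theorem gl_all {A : Set Cell} (h : Big f A) {c d : C} (hcd : c ≠ d) : f (mk A c d) = c := by
  obtain ⟨a, b, hab, h⟩ := h
  by_cases hd : d = a
  · subst hd
    exact gl_step hf hc hab hcd h
  · exact gl_step hf hc hd hcd (gl_step hf hc hab hd h)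

theorem gl_inter {a b c : C} (hab : a ≠ b) (hac : a ≠ c) (hbc : b ≠ c) {A B : Set Cell}
    (hA : Big f A) (hB : Big f B) : ∃ p, p ∈ A ∧ p ∈ B := by
  by_contra h
  push Not at h
  refine hf (mk A a c) (mk B a b) (fun p => ?_) ((gl_all hf hc hA hac).trans (gl_all hf hc hB hab).symm)
  by_cases hp : p ∈ A
  · have := h p hp
    simpa [mk, hp, this] using hab
  · by_cases hq : p ∈ B
    · simpa [mk, hp, hq] using hac.symm
    · simpa [mk, hp, hq] using hbc.symm

theorem gl_lvl {a b : C} (hab : a ≠ b) (x : Cell → C) : Big f {p | x p = f x} := by
  obtain ⟨e, he⟩ : ∃ e : C, e ≠ f x := by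
    by_cases h : a = f x
    · exact ⟨b, fun h' => hab (h.trans h'.symm)⟩
    · exact ⟨a, h⟩
  refine ⟨e, f x, he, ?_⟩
  rcases gl_two hf hc {p | x p = f x} e (f x) with h | h
  · exact h
  · refine absurd h (hf _ _ fun p => ?_)
    by_cases hp : x p = f x
    · simpa [mk, hp] using he
    · simpa [mk, hp] using fun h => hp h.symm

theorem gl_const [Finite Cell] {a b c : C} (hab : a ≠ b) (hac : a ≠ c) (hbc : b ≠ c) :
    ∃ p : Cell, ∀ x, f x = x p := by
  classical
  have := Fintype.ofFinite Cell
  obtain ⟨p, hp⟩ : ∃ p : Cell, Big f {p} := by
    by_contra h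
    push Not at h
    have key : ∀ S : Finset Cell, ¬ Big f (S : Set Cell) := by
      intro S
      induction S using Finset.induction_on with
      | empty =>
        intro h0
        obtain ⟨p, hp, _⟩ := gl_inter hf hc hab hac hbc h0 h0
        simp at hp
      | insert p S hpS ih =>
        intro hB
        let x : Cell → C := fun q => if q = p then a else if q ∈ S then b else c
        have hL := gl_lvl hf hc hab x
        obtain ⟨q, hq⟩ := gl_val hf hc x
        have hx : f x = a ∨ f x = b ∨ f x = c := by
          rw [← hq]
          by_cases h1 : q = p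
          · exact Or.inl (by simp [x, h1])
          · by_cases h2 : q ∈ S
            · exact Or.inr (Or.inl (by simp [x, h1, h2]))
            · exact Or.inr (Or.inr (by simp [x, h1, h2]))
        rcases hx with hx | hx | hx
        · have : {q | x q = f x} = {p} := by
            ext q
            rw [hx]
            by_cases h1 : q = p
            · simp [x, h1]
            · by_cases h2 : q ∈ S
              · simpa [x, h1, h2] using hab.symm
              · simpa [x, h1, h2] using hac.symm
          rw [this] at hL
          exact h p hL
        · have : {q | x q = f x} = (S : Set Cell) := by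
            ext q
            rw [hx]
            by_cases h1 : q = p
            · subst h1
              simpa [x, hpS] using hab
            · by_cases h2 : q ∈ S
              · simp [x, h1, h2]
              · simpa [x, h1, h2] using hbc.symm
          rw [this] at hL
          exact ih hL
        · obtain ⟨q, hq1, hq2⟩ := gl_inter hf hc hab hac hbc hL hB
          rw [Set.mem_setOf_eq, hx] at hq1
          have hq2' : q = p ∨ q ∈ S := by simpa using hq2
          by_cases h1 : q = p
          · simp [x, h1] at hq1
            exact hac hq1
          · have h2 := hq2'.resolve_left h1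
            simp [x, h1, h2] at hq1
            exact hbc hq1
    refine key Finset.univ ⟨a, b, hab, ?_⟩
    have : mk ((Finset.univ : Finset Cell) : Set Cell) a b = fun _ => a := by
      funext p
      simp [mk]
    rw [this]
    exact hc a
  refine ⟨p, fun x => ?_⟩
  obtain ⟨q, hq1, hq2⟩ := gl_inter hf hc hab hac hbc (gl_lvl hf hc hab x) hp
  rw [Set.mem_singleton_iff] at hq2
  subst hq2
  exact (hq1 : x q = f x).symm

end

/-- Greenwell–Lovász -/
theorem gl [Finite Cell] [Finite C] {f : (Cell → C) → C} (hf : ∀ x y, (∀ p, x p ≠ y p) → f x ≠ f y)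
    {a b c : C} (hab : a ≠ b) (hac : a ≠ c) (hbc : b ≠ c) :
    ∃ (p : Cell) (σ : C ≃ C), ∀ x, f x = σ (x p) := by
  obtain ⟨p0⟩ : Nonempty Cell := by
    by_contra h
    rw [not_nonempty_iff] at h
    exact hf (fun _ => a) (fun _ => a) (fun p => (h.false p).elim) rfl
  have hinj : Function.Injective fun c => f (fun _ => c) := by
    intro c d hcd
    by_contra h
    exact hf _ _ (fun _ => h) hcd
  let σ : C ≃ C := Equiv.ofBijective _ (Finite.injective_iff_bijective.1 hinj)
  have hσ : ∀ c, f (fun _ => c) = σ c := fun c => rfl
  obtain ⟨p, hp⟩ := gl_const (f := fun x => σ.symm (f x))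
    (fun x y h h' => hf x y h (σ.symm.injective h')) (fun c => by
      show σ.symm (f fun _ => c) = c
      rw [hσ, Equiv.symm_apply_apply]) hab hac hbc
  exact ⟨p, σ, fun x => by rw [← hp x, Equiv.apply_symm_apply]⟩

end HW71
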