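import Pool.Agent.HW71.Lev

/-!
# HW71/Leaf : the last level of the power is closed

Boolean names `bn a b y`: the value is `r a` in the worlds where `y` holds, otherwise `r b`; `Tr a b y`: `bn a b y` is joined
both ways to the constant `r b`, i.e. `y` is asserted in the form `a`, `b`. In a local state with `y` true some form is
asserted. `yy L u v`: some monochromatic walk goes from `u` to `v` with all its inner vertices in the list `L`
(Floyd–Warshall). The cost is polynomial: each step is one application of the local lemma.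
-/

namespace HW71

open HJ71 HM71

variable {V : Type} {w : ℕ} {adj : V → V → Prop} {r : Fin w → V} {A : Finset V}

open Classical in
noncomputable def bn (r : Fin w → V) (a b : Fin w) (y : (V → Fin w) → Prop) : (V → Fin w) → V :=
  nm r fun ω => if y ω then a else b

def Tr (r : Fin w → V) (a b : Fin w) (y : (V → Fin w) → Prop) (p q : (V → Fin w) → V) : Prop :=
  (p = bn r a b y ∧ q = cst w (r b)) ∨ (q = bn r a b y ∧ p = cst w (r b))

/-- constant of the local lemma -/
def Kc (w : ℕ) : ℕ := 2 ^ ((w ^ (16 * w ^ 2) + 2) * (w ^ (16 * w ^ 2) + 2))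

open Classical in
/-- the local lemma for four Boolean names and at most two vertices -/
theorem loc2 (hrr : ∀ c c', c ≠ c' → adj (r c) (r c')) {l : List Dig} (hb : Bas (w + 1) l)
    (hw : 3 ≤ w) (y : Fin 4 → (V → Fin w) → Prop) (U : Finset V) (hUc : U.card ≤ 2) (hUA : U ⊆ A)
    (X : ((V → Fin w) → V) → ((V → Fin w) → V) → Prop)
    (hX : ∀ x y, Lv adj r (A : Set V) x y → X x y) {c : ℕ}
    (h : ∀ Y : ((V → Fin w) → V) → ((V → Fin w) → V) → Prop, (∀ x y, X x y → Y x y) →
      ∀ ω0 : V → Fin w,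
      (∀ i, y i ω0 → ∃ a b, a ≠ b ∧ ∀ p q, Tr r a b (y i) p q → Y p q) →
      (∀ i a b, a ≠ b → (∀ p q, Tr r a b (y i) p q → Y p q) → y i ω0) →
      (∀ u ∈ U, ∀ v ∈ U, ω0 u = ω0 v → ¬ (Y (cst w u) (cst w v) ∧ Y (cst w v) (cst w u))) →
      Der (w + 1) c l Y) :
    Der (w + 1) (Kc w * (c + 5)) l X := by
  let κ : (V → Fin w) → (Fin 4 → Prop) × (U → Fin w) := fun ω => (fun i => y i ω, fun u => ω u)
  have hcard : Fintype.card ((Fin 4 → Prop) × (U → Fin w)) ≤ 16 * w ^ 2 := by
    rw [Fintype.card_prod, Fintype.card_fun, Fintype.card_fun, Fintype.card_prop, Fintype.card_fin,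
      Fintype.card_fin, Fintype.card_coe]
    exact Nat.mul_le_mul (by norm_num) (Nat.pow_le_pow_right (by omega) hUc)
  have hB : w ^ Fintype.card ((Fin 4 → Prop) × (U → Fin w)) + U.card ≤ w ^ (16 * w ^ 2) + 2 := by
    have := Nat.pow_le_pow_right (n := w) (by omega) hcard
    omega
  refine (loc hrr hb hw κ X hX U hUA (fun u hu => ⟨fun p => p.2 ⟨u, hu⟩, fun ω => rfl⟩) (c := c) ?_).up
    (Nat.mul_le_mul (Nat.pow_le_pow_right (by norm_num) (Nat.mul_le_mul hB hB)) le_rfl)
  intro Y hY ω0 h1 h2 h3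
  have e1 : ∀ i a b, (nm r fun ω => (if (κ ω).1 i then a else b)) = bn r a b (y i) :=
    fun i a b => rfl
  have e2 : ∀ b, (nm r fun _ : V → Fin w => b) = cst w (r b) := fun b => rfl
  refine h Y hY ω0 (fun i hi => ?_) (fun i a b hab hi => ?_) h3
  · obtain ⟨a, b, hab, g1, g2⟩ := h1 (fun p => p.1 i) hi
    rw [e1, e2] at g1 g2
    refine ⟨a, b, hab, fun p q hpq => ?_⟩
    rcases hpq with ⟨rfl, rfl⟩ | ⟨rfl, rfl⟩
    · exact g1
    · exact g2
  · by_contra hne
    have he : (if (κ ω0).1 i then a else b) = b := by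
      have : ¬ (κ ω0).1 i := hne
      rw [if_neg this]
    refine h2 (fun p => if p.1 i then a else b) (fun _ => b) he ?_
    rw [e1, e2]
    exact ⟨hi _ _ (Or.inl ⟨rfl, rfl⟩), hi _ _ (Or.inr ⟨rfl, rfl⟩)⟩

/-- Floyd–Warshall -/
def yy (adj : V → V → Prop) : List V → V → V → (V → Fin w) → Prop
  | [], u, v, ω => adj u v ∧ ω u = ω v
  | z :: L, u, v, ω => yy adj L u v ω ∨ (yy adj L u z ω ∧ yy adj L z v ω)

theorem yy_trans (L : List V) (ω : V → Fin w) : ∀ z ∈ L, ∀ u v, yy adj L u z ω → yy adj L z v ω →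
    yy adj L u v ω := by
  induction L with
  | nil => intro z hz; simp at hz
  | cons z0 L ih =>
    intro z hz u v h1 h2
    rcases List.mem_cons.1 hz with rfl | hz
    · have g1 : yy adj L u z ω := by rcases h1 with h1 | h1; exacts [h1, h1.1]
      have g2 : yy adj L z v ω := by rcases h2 with h2 | h2; exacts [h2, h2.2]
      exact Or.inr ⟨g1, g2⟩
    · rcases h1 with h1 | ⟨h1, h1'⟩
      · rcases h2 with h2 | ⟨h2, h2'⟩
        · exact Or.inl (ih z hz _ _ h1 h2)
        · exact Or.inr ⟨ih z hz _ _ h1 h2, h2'⟩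
      · rcases h2 with h2 | ⟨h2, h2'⟩
        · exact Or.inr ⟨h1, ih z hz _ _ h1' h2⟩
        · exact Or.inr ⟨h1, h2'⟩

theorem yy_base (L : List V) (ω : V → Fin w) {u v : V} (h : adj u v ∧ ω u = ω v) :
    yy adj L u v ω := by
  induction L with
  | nil => exact h
  | cons z L ih => exact Or.inl ih

theorem yy_tg (L : List V) (hL : ∀ z ∈ A, z ∈ L) (ω : V → Fin w) {u v : V}
    (h : Relation.TransGen (fun x y => x ∈ A ∧ y ∈ A ∧ adj x y ∧ ω x = ω y) u v) :
    yy adj L u v ω := by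
  induction h with
  | single h => exact yy_base L ω h.2.2
  | tail _ h ih => exact yy_trans L ω _ (hL _ h.1) _ _ ih (yy_base L ω h.2.2)

/-- the target of the walk from `u` to `v`: asserted in the form `a`, `b`, with the arc `v → u` -/
def GG (adj : V → V → Prop) (r : Fin w → V) (A : Finset V) (a b : Fin w) (L : List V) (u v : V)
    (p q : (V → Fin w) → V) : Prop :=
  Lv adj r (A : Set V) p q ∨ Tr r a b (yy adj L u v) p q ∨ (p = cst w v ∧ q = cst w u)

open Classical in
theorem gg_base (hrr : ∀ c c', c ≠ c' → adj (r c) (r c')) {l : List Dig} (hb : Bas (w + 1) l)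
    (hw : 3 ≤ w) {a b : Fin w} (hab : a ≠ b) {u v : V} (hu : u ∈ A) (hv : v ∈ A) :
    Der (w + 1) (Kc w * 10) l (GG adj r A a b [] u v) := by
  refine loc2 hrr hb hw ![yy adj [] u v, fun _ => False, fun _ => False, fun _ => False] {u, v}
    ((Finset.card_insert_le _ _).trans (by simp))
    (Finset.insert_subset hu (Finset.singleton_subset_iff.2 hv)) _ (fun _ _ h => Or.inl h) (c := 5)
    fun Y hY ω0 _ h2 h3 => ?_
  exfalso
  have hy : adj u v ∧ ω0 u = ω0 v := h2 0 a b hab fun p q hpq => hY _ _ (Or.inr (Or.inl hpq))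
  refine h3 u (by simp) v (by simp) hy.2 ⟨hY _ _ (Or.inl (Or.inl fun _ => hy.1)),
    hY _ _ (Or.inr (Or.inr ⟨rfl, rfl⟩))⟩

theorem gg_step (hrr : ∀ c c', c ≠ c' → adj (r c) (r c')) {l : List Dig} (hb : Bas (w + 1) l)
    (hw : 3 ≤ w) (L : List V) {z : V} (hz : z ∈ A)
    (hl : ∀ a b, a ≠ b → ∀ u ∈ A, ∀ v ∈ A, Clo l (GG adj r A a b L u v)) {a b : Fin w}
    (hab : a ≠ b) {u v : V} (hu : u ∈ A) (hv : v ∈ A) :
    Der (w + 1) (Kc w * 10) l (GG adj r A a b (z :: L) u v) := by
  classical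
  refine loc2 hrr hb hw ![yy adj (z :: L) u v, yy adj L u v, yy adj L u z, yy adj L z v] ∅
    (by simp) (by simp) _ (fun _ _ h => Or.inl h) (c := 5) fun Y hY ω0 h1 h2 _ => ?_
  have hy : yy adj L u v ω0 ∨ (yy adj L u z ω0 ∧ yy adj L z v ω0) :=
    h2 0 a b hab fun p q hpq => hY _ _ (Or.inr (Or.inl hpq))
  rcases hy with hy | ⟨hy1, hy2⟩
  · obtain ⟨a', b', hab', h1'⟩ := h1 1 hy
    refine (Der.of_clo ((hl a' b' hab' u hu v hv).le ?_)).up (Nat.zero_le _)
    rintro p q (h | h | h)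
    · exact hY _ _ (Or.inl h)
    · exact h1' _ _ h
    · exact hY _ _ (Or.inr (Or.inr h))
  · obtain ⟨a1, b1, hab1, h3⟩ := h1 2 hy1
    obtain ⟨a2, b2, hab2, h4⟩ := h1 3 hy2
    refine Der.cut (c := 0) (c' := 0) hb (a := cst w v) (b := cst w z) (d := cst w u)
      (hY _ _ (Or.inr (Or.inr ⟨rfl, rfl⟩))) (Der.of_clo ((hl a2 b2 hab2 z hz v hv).le ?_))
      (Der.of_clo ((hl a1 b1 hab1 u hu z hz).le ?_))
    · rintro p q (h | h | h)
      · exact Or.inl (hY _ _ (Or.inl h))
      · exact Or.inl (h4 _ _ h)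
      · exact Or.inr h
    · rintro p q (h | h | h)
      · exact Or.inl (hY _ _ (Or.inl h))
      · exact Or.inl (h3 _ _ h)
      · exact Or.inr h

theorem gg_all [Fintype V] (hrr : ∀ c c', c ≠ c' → adj (r c) (r c')) {l : List Dig}
    (hb : Bas (w + 1) l) (hw : 3 ≤ w) (L : List V) (hLA : ∀ z ∈ L, z ∈ A) :
    ∃ l', Ext (w + 1) ((L.length + 1) * (Fintype.card V * Fintype.card V *
      (w * w * (Kc w * 10)))) l l' ∧
      ∀ a b, a ≠ b → ∀ u ∈ A, ∀ v ∈ A, Clo l' (GG adj r A a b L u v) := by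
  classical
  let S : Finset ((Fin w × Fin w) × (V × V)) :=
    Finset.univ.filter fun p => p.1.1 ≠ p.1.2 ∧ p.2.1 ∈ A ∧ p.2.2 ∈ A
  have hS : S.card ≤ w * w * (Fintype.card V * Fintype.card V) := by
    refine (Finset.card_filter_le _ _).trans ?_
    simp
  have hcost : S.card * (Kc w * 10) ≤ Fintype.card V * Fintype.card V * (w * w * (Kc w * 10)) := by
    calc S.card * (Kc w * 10) ≤ w * w * (Fintype.card V * Fintype.card V) * (Kc w * 10) :=
          Nat.mul_le_mul_right _ hS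
      _ = _ := by ring
  induction L with
  | nil =>
    obtain ⟨l', e, h⟩ := der_all (k := w + 1) (l := l) S
      (W := fun _ => (V → Fin w) → V) (fun p => GG adj r A p.1.1 p.1.2 [] p.2.1 p.2.2)
      (c := Kc w * 10)
      (fun p hp => gg_base hrr hb hw (Finset.mem_filter.1 hp).2.1 (Finset.mem_filter.1 hp).2.2.1
        (Finset.mem_filter.1 hp).2.2.2) l fun T h => h
    refine ⟨l', e.up ?_, fun a b hab u hu v hv => h ((a, b), (u, v)) (by simp [S, hab, hu, hv])⟩
    simpa using hcost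
  | cons z L ih =>
    obtain ⟨l1, e1, h1⟩ := ih fun z hz => hLA z (List.mem_cons_of_mem _ hz)
    obtain ⟨l', e, h⟩ := der_all (k := w + 1) (l := l1) S
      (W := fun _ => (V → Fin w) → V) (fun p => GG adj r A p.1.1 p.1.2 (z :: L) p.2.1 p.2.2)
      (c := Kc w * 10)
      (fun p hp => gg_step hrr (hb.ext e1) hw L (hLA z List.mem_cons_self) h1
        (Finset.mem_filter.1 hp).2.1 (Finset.mem_filter.1 hp).2.2.1
        (Finset.mem_filter.1 hp).2.2.2) l1 fun T h => h
    refine ⟨l', (e1.trans e).up ?_, fun a b hab u hu v hv => h ((a, b), (u, v))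
      (by simp [S, hab, hu, hv])⟩
    rw [List.length_cons, Nat.add_mul (L.length + 1) 1, one_mul]
    exact Nat.add_le_add_left hcost _

/-- `y` asserted -/
def XT (adj : V → V → Prop) (r : Fin w → V) (A : Finset V) (a b : Fin w)
    (y : (V → Fin w) → Prop) (p q : (V → Fin w) → V) : Prop :=
  Lv adj r (A : Set V) p q ∨ Tr r a b y p q

/-- the disjunction over the pairs of `P` -/
def xx (adj : V → V → Prop) (A : Finset V) (L : List V) (P : Finset (V × V)) (ω : V → Fin w) :
    Prop :=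
  ∃ e ∈ P, e.1 ∈ A ∧ e.2 ∈ A ∧ adj e.1 e.2 ∧ yy adj L e.2 e.1 ω

open Classical in
theorem xx_der (hrr : ∀ c c', c ≠ c' → adj (r c) (r c')) {l : List Dig} (hb : Bas (w + 1) l)
    (hw : 3 ≤ w) (L : List V)
    (hl : ∀ a b, a ≠ b → ∀ u ∈ A, ∀ v ∈ A, Clo l (GG adj r A a b L u v))
    (P : Finset (V × V)) :
    ∃ l', Ext (w + 1) ((P.card + 1) * (w * w * (Kc w * 10))) l l' ∧
      ∀ a b, a ≠ b → Clo l' (XT adj r A a b (xx adj A L P)) := by
  let S : Finset (Fin w × Fin w) := Finset.univ.filter fun p => p.1 ≠ p.2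
  have hS : S.card ≤ w * w := by
    refine (Finset.card_filter_le _ _).trans ?_
    simp
  have hcost : S.card * (Kc w * 10) ≤ w * w * (Kc w * 10) := Nat.mul_le_mul_right _ hS
  induction P using Finset.induction_on with
  | empty =>
    obtain ⟨l', e, h⟩ := der_all (k := w + 1) (l := l) S
      (W := fun _ => (V → Fin w) → V) (fun p => XT adj r A p.1 p.2 (xx adj A L ∅)) (c := Kc w * 10)
      (fun p hp => by
        refine loc2 hrr hb hw ![xx adj A L ∅, fun _ => False, fun _ => False, fun _ => False] ∅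
          (by simp) (by simp) _ (fun _ _ h => Or.inl h) (c := 5) fun Y hY ω0 _ h2 _ => ?_
        exfalso
        obtain ⟨e, he, _⟩ : xx adj A L ∅ ω0 :=
          h2 0 p.1 p.2 (Finset.mem_filter.1 hp).2 fun p q hpq => hY _ _ (Or.inr hpq)
        simp at he) l fun T h => h
    refine ⟨l', e.up ?_, fun a b hab => h (a, b) (by simp [S, hab])⟩
    simpa using hcost
  | insert e P heP ih =>
    obtain ⟨l1, e1, h1⟩ := ih
    rw [Finset.card_insert_of_notMem heP]
    obtain ⟨l', e', h⟩ := der_all (k := w + 1) (l := l1) S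
      (W := fun _ => (V → Fin w) → V) (fun p => XT adj r A p.1 p.2 (xx adj A L (insert e P)))
      (c := Kc w * 10) (fun p hp => by
        refine loc2 hrr (hb.ext e1) hw ![xx adj A L (insert e P), xx adj A L P, yy adj L e.2 e.1,
          fun _ => False] ∅ (by simp) (by simp) _ (fun _ _ h => Or.inl h) (c := 5)
          fun Y hY ω0 h1' h2 _ => ?_
        obtain ⟨f, hf, hf1, hf2, h3, h4⟩ : xx adj A L (insert e P) ω0 :=
          h2 0 p.1 p.2 (Finset.mem_filter.1 hp).2 fun p q hpq => hY _ _ (Or.inr hpq)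
        rcases Finset.mem_insert.1 hf with rfl | hf
        · obtain ⟨a, b, hab, h5⟩ := h1' 2 h4
          refine (Der.of_clo (((hl a b hab f.2 hf2 f.1 hf1).sub e1.1).le ?_)).up (Nat.zero_le _)
          rintro p q (h | h | ⟨rfl, rfl⟩)
          · exact hY _ _ (Or.inl h)
          · exact h5 _ _ h
          · exact hY _ _ (Or.inl (Or.inl fun _ => h3))
        · obtain ⟨a, b, hab, h5⟩ := h1' 1 ⟨f, hf, hf1, hf2, h3, h4⟩
          refine (Der.of_clo ((h1 a b hab).le ?_)).up (Nat.zero_le _)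
          rintro p q (h | h)
          · exact hY _ _ (Or.inl h)
          · exact h5 _ _ h) l1 fun T h => h
    refine ⟨l', (e1.trans e').up ?_, fun a b hab => h (a, b) (by simp [S, hab])⟩
    rw [Nat.add_mul (P.card + 1) 1, one_mul]
    exact Nat.add_le_add_left hcost _

/-- the last level -/
theorem leaf [Fintype V] (hrr : ∀ c c', c ≠ c' → adj (r c) (r c')) {l : List Dig}
    (hb : Bas (w + 1) l) (hw : 3 ≤ w)
    (hno : ∀ ω : V → Fin w, ∃ u ∈ A, ∃ v ∈ A, adj u v ∧
      Relation.TransGen (fun x y => x ∈ A ∧ y ∈ A ∧ adj x y ∧ ω x = ω y) v u) :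
    ∃ l', Ext (w + 1) ((Fintype.card V + 1) * (Fintype.card V * Fintype.card V *
      (w * w * (Kc w * 10))) +
      (Fintype.card V * Fintype.card V + 1) * (w * w * (Kc w * 10))) l l' ∧
      Clo l' (Lv adj r (A : Set V)) := by
  classical
  let L : List V := A.toList
  have hL : ∀ z ∈ A, z ∈ L := fun z hz => by simpa [L] using hz
  have hLl : L.length ≤ Fintype.card V := by
    simpa [L] using Finset.card_le_univ A
  obtain ⟨l1, e1, h1⟩ := gg_all hrr hb hw L fun z hz => by simpa [L] using hz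
  obtain ⟨l2, e2, h2⟩ := xx_der hrr (hb.ext e1) hw L h1 Finset.univ
  have hab : (⟨0, by omega⟩ : Fin w) ≠ ⟨1, by omega⟩ := by simp
  refine ⟨l2, (e1.trans e2).up ?_, (h2 _ _ hab).le ?_⟩
  · have h5 : (Finset.univ : Finset (V × V)).card = Fintype.card V * Fintype.card V := by simp
    rw [h5]
    exact Nat.add_le_add_right (Nat.mul_le_mul_right _ (Nat.add_le_add_right hLl 1)) _
  · have hx : ∀ ω : V → Fin w, xx adj A L Finset.univ ω := by
      intro ω
      obtain ⟨u, hu, v, hv, h3, h4⟩ := hno ω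
      exact ⟨(u, v), Finset.mem_univ _, hu, hv, h3, yy_tg L hL ω h4⟩
    have hbn : bn r ⟨0, by omega⟩ ⟨1, by omega⟩ (xx adj A L Finset.univ) =
        cst w (r ⟨0, by omega⟩) := by
      funext ω
      simp [bn, nm, cst, hx ω]
    rintro p q (h | h)
    · exact h
    · rcases h with ⟨h5, h6⟩ | ⟨h5, h6⟩
      · rw [h5, h6, hbn]
        exact Or.inl fun _ => hrr _ _ hab
      · rw [h5, h6, hbn]
        exact Or.inl fun _ => hrr _ _ hab.symm

end HW71
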