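import Pool.Agent.HW71.Tup

/-!
# HW71/LeafE : the last level of the power with exceptional vertices
-/

namespace HW71

open HJ71 HM71

variable {V : Type} {w : ℕ} {adj : V → V → Prop} {r : Fin w → V} {A EA EB EE : Finset V}

/-- the digraph with the digons which give the colour `c` to `z` -/
def ColZ (adj : V → V → Prop) (r : Fin w → V) (z : V) (c : Fin w) (x y : V) : Prop :=
  adj x y ∨ ∃ c', c' ≠ c ∧ ((x = z ∧ y = r c') ∨ (x = r c' ∧ y = z))

theorem clo_colZ {l : List Dig} {z : V} (h : ∀ c, Clo l (ColZ adj r z c))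
    {Y : ((V → Fin w) → V) → ((V → Fin w) → V) → Prop} (hY : ∀ x y, Pow w adj x y → Y x y)
    (hz : Cld Y r z) : Clo l Y := by
  obtain ⟨c, hc⟩ := hz
  refine (h c).hom (cst w) ?_
  rintro x y (h1 | ⟨c', hc', ⟨rfl, rfl⟩ | ⟨rfl, rfl⟩⟩)
  · exact hY _ _ fun _ => h1
  · exact (hc c' hc').1
  · exact (hc c' hc').2

/-- the cost of the last level, `N` tuples -/
def LE (w b p n N : ℕ) : ℕ :=
  (n + 1) * (n * n * (w * w * (Kc w * 10))) + (w * w * N) * (Kd w b p * 5) +
    (n * n + N + 1) * (w * w * (Kc w * 10))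

open Classical in
theorem leafE [Fintype V] (hrr : ∀ c c', c ≠ c' → adj (r c) (r c')) {l : List Dig}
    (hb : Bas (w + 1) l) (hw : 3 ≤ w) {p b : ℕ} (hSA : ∀ u ∈ A, SA adj r p u)
    (hEE : EE.card ≤ b) (hEA : EA ⊆ EE) (hEB : EB ⊆ EE)
    (dA : ∀ z ∈ EA, ∀ c, adj (r c) z) (dB : ∀ z ∈ EB, ∀ c, adj z (r c))
    (hcl : ∀ z, (z ∈ EA ∨ z ∈ EB) → ∀ c, Clo l (ColZ adj r z c))
    (hno : ∀ ω : V → Fin w, (∃ u ∈ A, ∃ v ∈ A, adj u v ∧
      Relation.TransGen (fun x y => x ∈ A ∧ y ∈ A ∧ adj x y ∧ ω x = ω y) v u) ∨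
      ∃ t : EE × Fin w → V, yt adj A EA EB EE t ω) :
    ∃ l', Ext (w + 1) (LE w b p (Fintype.card V)
      (Fintype.card (EE × Fin w → V))) l l' ∧ Clo l' (Lv adj r (A : Set V)) := by
  let L : List V := A.toList
  have hL : ∀ z ∈ A, z ∈ L := fun z hz => by simpa [L] using hz
  have hLl : L.length ≤ Fintype.card V := by
    simpa [L] using Finset.card_le_univ A
  obtain ⟨l1, e1, h1⟩ := gg_all hrr hb hw L fun z hz => by simpa [L] using hz
  -- the tuples
  let S : Finset ((Fin w × Fin w) × (EE × Fin w → V)) :=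
    Finset.univ.filter fun q => q.1.1 ≠ q.1.2
  have hS : S.card ≤ w * w * Fintype.card (EE × Fin w → V) := by
    refine (Finset.card_filter_le _ _).trans ?_
    rw [Finset.card_univ, Fintype.card_prod, Fintype.card_prod, Fintype.card_fin]
  obtain ⟨l2, e2, h2⟩ := der_all (k := w + 1) (l := l1) S
    (W := fun _ => (V → Fin w) → V)
    (fun q => XT adj r A q.1.1 q.1.2 (yt adj A EA EB EE q.2)) (c := Kd w b p * 5)
    (fun q _ => tup_der hrr (hb.ext e1) hw hSA hEE hEA hEB dA dB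
      (fun Y hY z hz hC => clo_colZ (fun c => (hcl z hz c).sub e1.1) hY hC) q.2)
    l1 fun T h => h
  -- the disjunction
  let y : (V × V) ⊕ (EE × Fin w → V) → (V → Fin w) → Prop := fun i ω =>
    match i with
    | Sum.inl q => yy adj L q.2 q.1 ω
    | Sum.inr t => yt adj A EA EB EE t ω
  let P : Finset ((V × V) ⊕ (EE × Fin w → V)) := Finset.univ.filter fun i =>
    match i with
    | Sum.inl q => q.1 ∈ A ∧ q.2 ∈ A ∧ adj q.1 q.2
    | Sum.inr _ => True
  have hP : P.card ≤ Fintype.card V * Fintype.card V + Fintype.card (EE × Fin w → V) := by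
    refine (Finset.card_filter_le _ _).trans ?_
    rw [Finset.card_univ, Fintype.card_sum, Fintype.card_prod]
  obtain ⟨l3, e3, h3⟩ := or_chain (A := A) hrr ((hb.ext e1).ext e2) hw y P (by
    rintro (q | t) hi a b hab
    · obtain ⟨hu, hv, ha⟩ : q.1 ∈ A ∧ q.2 ∈ A ∧ adj q.1 q.2 := (Finset.mem_filter.1 hi).2
      refine ((h1 a b hab q.2 hv q.1 hu).sub e2.1).le ?_
      rintro x z (h | h | ⟨rfl, rfl⟩)
      · exact Or.inl h
      · exact Or.inr h
      · exact Or.inl (Or.inl fun _ => ha)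
    · exact h2 ((a, b), t) (by simp [S, hab]))
  have hab : (⟨0, by omega⟩ : Fin w) ≠ ⟨1, by omega⟩ := by simp
  refine ⟨l3, ((e1.trans e2).trans e3).up ?_, (h3 _ _ hab).le ?_⟩
  · unfold LE
    refine Nat.add_le_add (Nat.add_le_add ?_ ?_) ?_
    · exact Nat.mul_le_mul_right _ (Nat.add_le_add_right hLl 1)
    · exact Nat.mul_le_mul_right _ hS
    · exact Nat.mul_le_mul_right _ (Nat.add_le_add_right hP 1)
  · have hx : ∀ ω : V → Fin w, ∃ i ∈ P, y i ω := by
      intro ω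
      rcases hno ω with ⟨u, hu, v, hv, h4, h5⟩ | h4
      · exact ⟨Sum.inl (u, v), Finset.mem_filter.2 ⟨Finset.mem_univ _, hu, hv, h4⟩,
          yy_tg L hL ω h5⟩
      · obtain ⟨t, ht⟩ := h4
        exact ⟨Sum.inr t, Finset.mem_filter.2 ⟨Finset.mem_univ _, trivial⟩, ht⟩
    have hbn : bn r ⟨0, by omega⟩ ⟨1, by omega⟩ (fun ω => ∃ i ∈ P, y i ω) =
        cst w (r ⟨0, by omega⟩) := by
      funext ω
      have := hx ω
      simp only [bn, nm, cst]
      rw [if_pos this]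
    rintro p q (h | h)
    · exact h
    · rcases h with ⟨h5, h6⟩ | ⟨h5, h6⟩
      · rw [h5, h6, hbn]
        exact Or.inl fun _ => hrr _ _ hab
      · rw [h5, h6, hbn]
        exact Or.inl fun _ => hrr _ _ hab.symm

end HW71
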