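import Pool.Agent.HW71.Sem

/-!
# HW71/Lev : powers of a digraph with a clique, the level step and the local lemma

The vertices of the power are the maps from the worlds `ω : V → Fin w` to `V`. `Lv J`: the power, with `cst v` joined both
ways to `nm (π (ω v))` for every `v ∈ J` and every `π` without fixed point.
-/

namespace HW71

open HJ71 HM71

variable {V : Type} {w : ℕ} {adj : V → V → Prop} {t s r : Fin w → V}

def Pow (w : ℕ) (adj : V → V → Prop) (x y : (V → Fin w) → V) : Prop := ∀ ω, adj (x ω) (y ω)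

def cst (w : ℕ) (v : V) : (V → Fin w) → V := fun _ => v

def nm (r : Fin w → V) (φ : (V → Fin w) → Fin w) : (V → Fin w) → V := fun ω => r (φ ω)

def Lv (adj : V → V → Prop) (r : Fin w → V) (J : Set V) (x y : (V → Fin w) → V) : Prop :=
  Pow w adj x y ∨ ∃ v ∈ J, ∃ π : Fin w → Fin w, (∀ c, π c ≠ c) ∧
    ((x = cst w v ∧ y = nm r fun ω => π (ω v)) ∨ (y = cst w v ∧ x = nm r fun ω => π (ω v)))

theorem clo_clique {k : ℕ} {l : List Dig} (hb : Bas k l) {W : Type} {Y : W → W → Prop}
    (f : Fin k → W) (hf : ∀ i j, i ≠ j → Y (f i) (f j)) : Clo l Y := by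
  obtain ⟨B, hB, hc, ha⟩ := hb
  have := B.fin
  by_cases hk : Nat.card B.V = 0
  · rcases Nat.card_eq_zero.1 hk with h | h
    · exact ⟨B, hB, fun v => (h.false v).elim, fun a => (h.false a).elim⟩
    · exact absurd this (not_finite_iff_infinite.2 h)
  obtain ⟨e⟩ : Nonempty (B.V ≃ Fin k) := ⟨Finite.equivFinOfCardEq hc⟩
  exact ⟨B, hB, fun v => f (e v), fun a b hab => hf _ _ fun h => (ha a b).1 hab (e.injective h)⟩

open Classical in
/-- one level -/
theorem level {p : ℕ} {l : List Dig} (hb : Bas (w + 1) l) {J : Set V} {v : V}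
    (hv : SA adj r p v) (h : Clo l (Lv adj r (insert v J))) :
    Der (w + 1) (2 ^ (p * p) * 5) l (Lv adj r J) := by
  obtain ⟨B, hB, hvB, hrB, hcol⟩ := hv
  let M : Finset ((V → Fin w) → V) := B.image fun x => cst w x
  have hM : M.card ≤ p := Finset.card_image_le.trans hB
  have hBM : ∀ x ∈ B, cst w x ∈ M := fun x hx => Finset.mem_image_of_mem _ hx
  refine (lcl hb (Lv adj r J) M (c := 0) fun Y hY hP => ?_).up
    (Nat.mul_le_mul (Nat.pow_le_pow_right (by norm_num) (Nat.mul_le_mul hM hM)) (by norm_num))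
  refine Der.of_clo ?_
  by_cases hf : Free w M Y
  swap
  · obtain ⟨f, _, hf⟩ := not_not.1 hf
    exact clo_clique hb f hf
  have hPY : ∀ x y, Pow w adj x y → Y x y := fun x y hxy => hY x y (Or.inl hxy)
  obtain ⟨c0, hc0⟩ := hcol _ (fun x => cst w x) M Y hBM (fun x y h => hPY _ _ fun _ => h) hP hf
  have key : ∀ c, c ≠ c0 → Y (cst w v) (cst w (r c)) ∧ Y (cst w (r c)) (cst w v) := hc0.2
  refine h.hom (fun x ω => x (Function.update ω v c0)) ?_
  rintro x y (hxy | ⟨u, hu, π, hπ, hxy⟩)
  · exact hPY _ _ fun ω => hxy _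
  · by_cases huv : u = v
    · subst huv
      have e1 : (fun ω : V → Fin w => cst w u (Function.update ω u c0)) = cst w u := rfl
      have e2 : (fun ω : V → Fin w => nm r (fun ω => π (ω u)) (Function.update ω u c0)) =
          cst w (r (π c0)) := by
        funext ω
        simp [nm, cst]
      rcases hxy with ⟨rfl, rfl⟩ | ⟨rfl, rfl⟩
      · rw [e1, e2]
        exact (key _ (hπ _)).1
      · rw [e1, e2]
        exact (key _ (hπ _)).2
    · have huJ : u ∈ J := hu.resolve_left huv
      have e1 : (fun ω : V → Fin w => cst w u (Function.update ω v c0)) = cst w u := rfl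
      have e2 : (fun ω : V → Fin w => nm r (fun ω => π (ω u)) (Function.update ω v c0)) =
          nm r (fun ω => π (ω u)) := by
        funext ω
        simp [nm, Function.update_of_ne huv]
      rcases hxy with ⟨rfl, rfl⟩ | ⟨rfl, rfl⟩
      · rw [e1, e2]
        exact hY _ _ (Or.inr ⟨u, huJ, π, hπ, Or.inl ⟨rfl, rfl⟩⟩)
      · rw [e1, e2]
        exact hY _ _ (Or.inr ⟨u, huJ, π, hπ, Or.inr ⟨rfl, rfl⟩⟩)

open Classical in
/-- the local lemma -/
theorem loc (hrr : ∀ c c', c ≠ c' → adj (r c) (r c')) {l : List Dig} (hb : Bas (w + 1) l)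
    (hw : 3 ≤ w) {Cell : Type} [Fintype Cell] (κ : (V → Fin w) → Cell) {A : Finset V}
    (X : ((V → Fin w) → V) → ((V → Fin w) → V) → Prop)
    (hX : ∀ x y, Lv adj r (A : Set V) x y → X x y) (U : Finset V) (hUA : U ⊆ A)
    (hU : ∀ u ∈ U, ∃ g : Cell → Fin w, ∀ ω, g (κ ω) = ω u) {c : ℕ}
    (h : ∀ Y : ((V → Fin w) → V) → ((V → Fin w) → V) → Prop, (∀ x y, X x y → Y x y) →
      ∀ ω0 : V → Fin w,
      (∀ y : Cell → Prop, y (κ ω0) → ∃ a b, a ≠ b ∧
        Y (nm r fun ω => if y (κ ω) then a else b) (nm r fun _ => b) ∧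
        Y (nm r fun _ => b) (nm r fun ω => if y (κ ω) then a else b)) →
      (∀ φ ψ : Cell → Fin w, φ (κ ω0) = ψ (κ ω0) →
        ¬ (Y (nm r fun ω => φ (κ ω)) (nm r fun ω => ψ (κ ω)) ∧
          Y (nm r fun ω => ψ (κ ω)) (nm r fun ω => φ (κ ω)))) →
      (∀ u ∈ U, ∀ v ∈ U, ω0 u = ω0 v → ¬ (Y (cst w u) (cst w v) ∧ Y (cst w v) (cst w u))) →
      Der (w + 1) c l Y) :
    Der (w + 1) (2 ^ ((w ^ Fintype.card Cell + U.card) * (w ^ Fintype.card Cell + U.card)) *
      (c + 5)) l X := by
  let M : Finset ((V → Fin w) → V) :=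
    (Finset.univ.image fun φ : Cell → Fin w => nm r fun ω => φ (κ ω)) ∪
      (U.image fun x => cst w x)
  have hM : M.card ≤ w ^ Fintype.card Cell + U.card := by
    refine (Finset.card_union_le _ _).trans (Nat.add_le_add ?_ Finset.card_image_le)
    refine Finset.card_image_le.trans ?_
    simp
  have hnM : ∀ φ : Cell → Fin w, (nm r fun ω => φ (κ ω)) ∈ M := fun φ => by simp [M]
  have huM : ∀ u ∈ U, cst w u ∈ M := fun u hu =>
    Finset.mem_union_right _ (Finset.mem_image_of_mem _ hu)
  refine (lcl hb X M (c := c) fun Y hY hP => ?_).up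
    (Nat.mul_le_mul (Nat.pow_le_pow_right (by norm_num) (Nat.mul_le_mul hM hM)) le_rfl)
  by_cases hf : Free w M Y
  swap
  · obtain ⟨f, _, hf⟩ := not_not.1 hf
    exact (Der.of_clo (clo_clique hb f hf)).up (Nat.zero_le _)
  have hPY : ∀ x y, Pow w adj x y → Y x y := fun x y hxy => hY x y (hX x y (Or.inl hxy))
  -- everywhere different names are joined both ways
  have hdiff : ∀ x y : Cell → Fin w, (∀ p, x p ≠ y p) →
      Y (nm r fun ω => x (κ ω)) (nm r fun ω => y (κ ω)) := fun x y hxy =>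
    hPY _ _ fun ω => hrr _ _ (hxy _)
  obtain ⟨f, hfc⟩ := chains hP hf (by omega)
  obtain ⟨p, σ, hpσ⟩ := gl (f := fun φ : Cell → Fin w => f (nm r fun ω => φ (κ ω)))
    (fun x y hxy hne => by
      rcases hfc _ (hnM x) _ (hnM y) hne with h | h
      · exact h (hdiff x y hxy)
      · exact h (hdiff y x fun p => (hxy p).symm)) (a := (⟨0, by omega⟩ : Fin w))
    (b := ⟨1, by omega⟩) (c := ⟨2, by omega⟩) (by simp) (by simp) (by simp)
  obtain ⟨ω0, rfl⟩ : ∃ ω0, κ ω0 = p := by
    by_contra hne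
    push Not at hne
    let φ : Cell → Fin w := fun _ => ⟨0, by omega⟩
    let ψ : Cell → Fin w := Function.update φ p ⟨1, by omega⟩
    have hv : (fun ω => φ (κ ω)) = fun ω => ψ (κ ω) := by
      funext ω
      simp only [ψ]
      rw [Function.update_of_ne (hne ω)]
    have h1 : σ (φ p) = σ (ψ p) := by
      rw [← hpσ, ← hpσ, hv]
    have h2 := σ.injective h1
    simp [φ, ψ] at h2
  have hsame : ∀ φ ψ : Cell → Fin w, φ (κ ω0) = ψ (κ ω0) →
      ¬ Y (nm r fun ω => φ (κ ω)) (nm r fun ω => ψ (κ ω)) ∨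
      ¬ Y (nm r fun ω => ψ (κ ω)) (nm r fun ω => φ (κ ω)) := by
    intro φ ψ he
    refine hfc _ (hnM φ) _ (hnM ψ) ?_
    rw [hpσ φ, hpσ ψ, he]
  refine h Y hY ω0 (fun y hy => ?_) (fun φ ψ he hh => ?_) (fun u hu v hv huv hh => ?_)
  · refine forms hP (fun a b => nm r fun ω => if y (κ ω) then a else b)
      (fun b => nm r fun _ => b) (fun a b => hnM fun p => if y p then a else b)
      (fun b => hnM fun _ => b) (fun a b c _ _ => ?_) (fun d b _ => ?_)
      (fun a b c hab hac hbc => ⟨?_, ?_⟩) (fun a b d had hdb => ?_) (fun b d hbd => ?_)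
      (x := (⟨0, by omega⟩ : Fin w)) (y := ⟨1, by omega⟩) (z := ⟨2, by omega⟩) (by simp) (by simp)
      (by simp)
    · exact hsame (fun p => if y p then a else b) (fun p => if y p then a else c) (by simp [hy])
    · exact hsame (fun _ => d) (fun p => if y p then d else b) (by simp [hy])
    · refine hdiff (fun p => if y p then a else c) (fun _ => b) fun p => ?_
      by_cases h : y p
      · simpa [h] using hab
      · simpa [h] using hbc.symm
    · refine hdiff (fun _ => b) (fun p => if y p then a else c) fun p => ?_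
      by_cases h : y p
      · simpa [h] using hab.symm
      · simpa [h] using hbc
    · refine hdiff (fun p => if y p then a else d) (fun p => if y p then d else b) fun p => ?_
      by_cases h : y p
      · simpa [h] using had
      · simpa [h] using hdb
    · exact hdiff (fun _ => b) (fun _ => d) fun _ => hbd
  · rcases hsame φ ψ he with h | h
    · exact h hh.1
    · exact h hh.2
  · have colu : ∀ u ∈ U, f (cst w u) = σ (ω0 u) := by
      intro u hu
      by_contra hd
      obtain ⟨g, hg⟩ := hU u hu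
      obtain ⟨π, hπ, hπb⟩ : ∃ π : Fin w → Fin w, (∀ c, π c ≠ c) ∧
          π (ω0 u) = σ.symm (f (cst w u)) := by
        have hne : ω0 u ≠ σ.symm (f (cst w u)) := fun hh => hd (by rw [hh]; simp)
        refine ⟨fun x => if x = σ.symm (f (cst w u)) then ω0 u else σ.symm (f (cst w u)),
          fun x => ?_, by simp [hne]⟩
        by_cases hx : x = σ.symm (f (cst w u))
        · simpa [hx] using hne
        · simpa [hx] using Ne.symm hx
      have e1 : f (nm r fun ω => π (g (κ ω))) = f (cst w u) := by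
        rw [hpσ fun p => π (g p), hg, hπb]
        simp
      rcases hfc _ (huM u hu) _ (hnM fun p => π (g p)) e1.symm with h | h
      · exact h (hY _ _ (hX _ _ (Or.inr ⟨u, hUA hu, π, hπ, Or.inl ⟨rfl, by
          funext ω; simp [nm, hg]⟩⟩)))
      · exact h (hY _ _ (hX _ _ (Or.inr ⟨u, hUA hu, π, hπ, Or.inr ⟨rfl, by
          funext ω; simp [nm, hg]⟩⟩)))
    rcases hfc _ (huM u hu) _ (huM v hv) (by rw [colu u hu, colu v hv, huv]) with h | h
    · exact h hh.1
    · exact h hh.2

end HW71
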