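import Pool.Agent.HM71.DD

/-!
# HW71/Loc : local completeness of the cut rule

`Der k c l H`: each list which contains `l` has an extension by at most `c` operations in which the target `H` is closed.
`lcl`: if every target `Y ⊇ X` whose non-arcs in the finite set `M` are irreflexive-free and transitive is derivable, so is
`X`, with a factor depending on the size of `M` only.
-/

namespace HW71

open HJ71 HM71

variable {k : ℕ}

def Der (k c : ℕ) (l : List Dig) {W : Type} (H : W → W → Prop) : Prop :=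
  ∀ l1 : List Dig, (∀ T ∈ l, T ∈ l1) → ∃ l2, Ext k c l1 l2 ∧ Clo l2 H

section

variable {l l' : List Dig} {W W' : Type} {H X : W → W → Prop} {c c' : ℕ}

theorem Der.of_clo (h : Clo l H) : Der k 0 l H := fun l1 h1 => ⟨l1, Ext.refl, h.sub h1⟩

theorem Der.up (h : Der k c l H) (hc : c ≤ c') : Der k c' l H := fun l1 h1 => by
  obtain ⟨l2, e, h2⟩ := h l1 h1
  exact ⟨l2, e.up hc, h2⟩

theorem Der.sub (h : Der k c l H) (hl : ∀ T ∈ l, T ∈ l') : Der k c l' H :=
  fun l1 h1 => h l1 fun T hT => h1 T (hl T hT)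

theorem Der.hom {H' : W' → W' → Prop} (h : Der k c l H) (f : W → W')
    (hf : ∀ x y, H x y → H' (f x) (f y)) : Der k c l H' := fun l1 h1 => by
  obtain ⟨l2, e, h2⟩ := h l1 h1
  exact ⟨l2, e, h2.hom f hf⟩

theorem Der.bind (h : Der k c l X) {H : W' → W' → Prop}
    (h' : ∀ l', (∀ T ∈ l, T ∈ l') → Clo l' X → Der k c' l' H) : Der k (c + c') l H :=
  fun l1 h1 => by
    obtain ⟨l2, e, h2⟩ := h l1 h1
    obtain ⟨l3, e', h3⟩ := h' l2 (fun T hT => e.1 T (h1 T hT)) h2 l2 fun T hT => hT
    exact ⟨l3, e.trans e', h3⟩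

theorem Der.cut (hb : Bas k l) {a b d : W} (had : H a d) (h1 : Der k c l (Add H a b))
    (h2 : Der k c' l (Add H b d)) : Der k (c + c' + 5) l H := fun l1 hl1 => by
  obtain ⟨l2, e2, g2⟩ := h1 l1 hl1
  obtain ⟨l3, e3, g3⟩ := h2 l2 fun T hT => e2.1 T (hl1 T hT)
  obtain ⟨l4, e4, g4⟩ := cut_run (hb.sub fun T hT => e3.1 T (e2.1 T (hl1 T hT))) had
    (g2.sub e3.1) g3
  exact ⟨l4, (e2.trans e3).trans e4, g4⟩

end

/-- all targets of a finite family -/
theorem der_all {l : List Dig} {ι : Type} (S : Finset ι) {W : ι → Type}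
    (X : ∀ i, W i → W i → Prop) {c : ℕ} (h : ∀ i ∈ S, Der k c l (X i)) :
    ∀ l1 : List Dig, (∀ T ∈ l, T ∈ l1) → ∃ l2, Ext k (S.card * c) l1 l2 ∧ ∀ i ∈ S, Clo l2 (X i) := by
  classical
  induction S using Finset.induction_on with
  | empty => exact fun l1 _ => ⟨l1, Ext.refl.up (Nat.zero_le _), fun i hi => absurd hi (by simp)⟩
  | insert i S hi ih =>
    intro l1 h1
    obtain ⟨l2, e2, g2⟩ := ih (fun j hj => h j (Finset.mem_insert_of_mem hj)) l1 h1
    obtain ⟨l3, e3, g3⟩ := h i (Finset.mem_insert_self _ _) l2 fun T hT => e2.1 T (h1 T hT)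
    refine ⟨l3, (e2.trans e3).up (by rw [Finset.card_insert_of_notMem hi]; ring_nf; rfl), fun j hj => ?_⟩
    rcases Finset.mem_insert.1 hj with rfl | hj
    · exact g3
    · exact (g2 j hj).sub e3.1

/-- the non-arcs of `Y` form a preorder on `M` -/
def PreOn {W : Type} (M : Finset W) (Y : W → W → Prop) : Prop :=
  (∀ x ∈ M, ¬ Y x x) ∧ ∀ x ∈ M, ∀ y ∈ M, ∀ z ∈ M, ¬ Y x y → ¬ Y y z → ¬ Y x z

theorem lcl {l : List Dig} (hb : Bas k l) {W : Type} (X : W → W → Prop) (M : Finset W) {c : ℕ}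
    (h : ∀ Y : W → W → Prop, (∀ x y, X x y → Y x y) → PreOn M Y → Der k c l Y) :
    Der k (2 ^ (M.card * M.card) * (c + 5)) l X := by
  classical
  let N : (W → W → Prop) → ℕ := fun Y => ((M ×ˢ M).filter fun p => ¬ Y p.1 p.2).card
  have key : ∀ n, ∀ Y : W → W → Prop, (∀ x y, X x y → Y x y) → N Y ≤ n →
      Der k (2 ^ n * (c + 5) - 5) l Y := by
    intro n
    induction n with
    | zero =>
      intro Y hXY hN
      by_cases hM : ∃ x, x ∈ M
      · obtain ⟨x, hx⟩ := hM
        have : Y x x := by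
          by_contra hx'
          have h1 : (x, x) ∈ (M ×ˢ M).filter fun p => ¬ Y p.1 p.2 := by simp [hx, hx']
          have h2 : 0 < N Y := Finset.card_pos.2 ⟨_, h1⟩
          omega
        exact (Der.of_clo (Clo.loop hb this)).up (Nat.zero_le _)
      · refine (h Y hXY ⟨fun x hx => absurd ⟨x, hx⟩ hM, fun x hx => absurd ⟨x, hx⟩ hM⟩).up ?_
        simp
    | succ n ih =>
      intro Y hXY hN
      by_cases hP : PreOn M Y
      · refine (h Y hXY hP).up ?_
        have : 1 ≤ 2 ^ (n + 1) := Nat.one_le_two_pow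
        have h3 := Nat.mul_le_mul_right (c + 5) this
        omega
      by_cases hloop : ∃ x ∈ M, Y x x
      · obtain ⟨x, _, hx⟩ := hloop
        exact (Der.of_clo (Clo.loop hb hx)).up (Nat.zero_le _)
      push Not at hloop
      have : ∃ x ∈ M, ∃ y ∈ M, ∃ z ∈ M, ¬ Y x y ∧ ¬ Y y z ∧ Y x z := by
        by_contra hne
        push Not at hne
        exact hP ⟨hloop, fun x hx y hy z hz h1 h2 => hne x hx y hy z hz h1 h2⟩
      obtain ⟨x, hx, y, hy, z, hz, h1, h2, h3⟩ := this
      have hlt : ∀ a ∈ M, ∀ b ∈ M, ¬ Y a b → N (Add Y a b) ≤ n := by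
        intro a ha b hb' hab
        have : N (Add Y a b) < N Y := by
          refine Finset.card_lt_card (Finset.ssubset_iff_subset_ne.2 ⟨?_, ?_⟩)
          · intro p hp
            simp only [Finset.mem_filter] at hp ⊢
            exact ⟨hp.1, fun h => hp.2 (Or.inl h)⟩
          · intro he
            have h4 : (a, b) ∈ (M ×ˢ M).filter fun p => ¬ Y p.1 p.2 := by simp [ha, hb', hab]
            rw [← he] at h4
            simp only [Finset.mem_filter] at h4
            exact h4.2 (Or.inr ⟨rfl, rfl⟩)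
        omega
      have d1 := ih (Add Y x y) (fun p q hpq => Or.inl (hXY p q hpq)) (hlt x hx y hy h1)
      have d2 := ih (Add Y y z) (fun p q hpq => Or.inl (hXY p q hpq)) (hlt y hy z hz h2)
      refine (Der.cut hb h3 d1 d2).up ?_
      have : 1 ≤ 2 ^ n := Nat.one_le_two_pow
      have h5 := Nat.mul_le_mul_right (c + 5) this
      have h6 : 2 ^ (n + 1) * (c + 5) = 2 ^ n * (c + 5) + 2 ^ n * (c + 5) := by ring
      omega
  refine (key (M.card * M.card) X (fun _ _ h => h) ?_).up (Nat.sub_le _ _)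
  calc N X ≤ (M ×ˢ M).card := Finset.card_filter_le _ _
    _ = M.card * M.card := Finset.card_product _ _

end HW71
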