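import Pool.Agent.HW71.Leaf

/-!
# HW71/LocF : the local lemma with the chain colouring

As `loc`, with a further finite set `Ex` of vertices of the digraph in the local set, and with the chain colouring `F`
(normalised: `F (cst (r c)) = c`, `F (cst u) = ω0 u` for `u ∈ U`).
-/

namespace HW71

open HJ71 HM71

variable {V : Type} {w : ℕ} {adj : V → V → Prop} {r : Fin w → V} {A : Finset V}

/-- what is known in a local state -/
structure LS (adj : V → V → Prop) (r : Fin w → V) (Y : ((V → Fin w) → V) → ((V → Fin w) → V) → Prop)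
    (M : Finset ((V → Fin w) → V)) (F : ((V → Fin w) → V) → Fin w) : Prop where
  pow : ∀ x y, Pow w adj x y → Y x y
  pre : PreOn M Y
  free : Free w M Y
  rM : ∀ c, cst w (r c) ∈ M
  rr : ∀ c c', c ≠ c' → adj (r c) (r c')
  ch : ∀ x ∈ M, ∀ y ∈ M, F x = F y → ¬ Y x y ∨ ¬ Y y x
  Fr : ∀ c, F (cst w (r c)) = c

open Classical in
theorem locF (hrr : ∀ c c', c ≠ c' → adj (r c) (r c')) {l : List Dig} (hb : Bas (w + 1) l)
    (hw : 3 ≤ w) {Cell : Type} [Fintype Cell] (κ : (V → Fin w) → Cell)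
    (X : ((V → Fin w) → V) → ((V → Fin w) → V) → Prop)
    (hX : ∀ x y, Lv adj r (A : Set V) x y → X x y) (U Ex : Finset V) (hUA : U ⊆ A)
    (hU : ∀ u ∈ U, ∃ g : Cell → Fin w, ∀ ω, g (κ ω) = ω u) {c : ℕ}
    (h : ∀ Y : ((V → Fin w) → V) → ((V → Fin w) → V) → Prop, (∀ x y, X x y → Y x y) →
      ∀ (ω0 : V → Fin w) (M : Finset ((V → Fin w) → V)) (F : ((V → Fin w) → V) → Fin w),
      LS adj r Y M F → (∀ u ∈ U, cst w u ∈ M) → (∀ u ∈ Ex, cst w u ∈ M) →
      (∀ u ∈ U, F (cst w u) = ω0 u) →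
      (∀ φ : Cell → Fin w, F (nm r fun ω => φ (κ ω)) = φ (κ ω0)) →
      (∀ φ : Cell → Fin w, (nm r fun ω => φ (κ ω)) ∈ M) →
      Der (w + 1) c l Y) :
    Der (w + 1) (2 ^ ((w ^ Fintype.card Cell + U.card + Ex.card) *
      (w ^ Fintype.card Cell + U.card + Ex.card)) * (c + 5)) l X := by
  let M : Finset ((V → Fin w) → V) :=
    (Finset.univ.image fun φ : Cell → Fin w => nm r fun ω => φ (κ ω)) ∪
      (U.image fun x => cst w x) ∪ (Ex.image fun x => cst w x)
  have hM : M.card ≤ w ^ Fintype.card Cell + U.card + Ex.card := by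
    refine (Finset.card_union_le _ _).trans (Nat.add_le_add ?_ Finset.card_image_le)
    refine (Finset.card_union_le _ _).trans (Nat.add_le_add ?_ Finset.card_image_le)
    refine Finset.card_image_le.trans ?_
    simp
  have hnM : ∀ φ : Cell → Fin w, (nm r fun ω => φ (κ ω)) ∈ M := fun φ =>
    Finset.mem_union_left _ (Finset.mem_union_left _
      (Finset.mem_image_of_mem _ (Finset.mem_univ φ)))
  have huM : ∀ u ∈ U, cst w u ∈ M := fun u hu =>
    Finset.mem_union_left _ (Finset.mem_union_right _ (Finset.mem_image_of_mem _ hu))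
  have heM : ∀ u ∈ Ex, cst w u ∈ M := fun u hu =>
    Finset.mem_union_right _ (Finset.mem_image_of_mem _ hu)
  refine (lcl hb X M (c := c) fun Y hY hP => ?_).up
    (Nat.mul_le_mul (Nat.pow_le_pow_right (by norm_num) (Nat.mul_le_mul hM hM)) le_rfl)
  by_cases hf : Free w M Y
  swap
  · obtain ⟨f, _, hf⟩ := not_not.1 hf
    exact (Der.of_clo (clo_clique hb f hf)).up (Nat.zero_le _)
  have hPY : ∀ x y, Pow w adj x y → Y x y := fun x y hxy => hY x y (hX x y (Or.inl hxy))
  have hdiff : ∀ x y : Cell → Fin w, (∀ p, x p ≠ y p) →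
      Y (nm r fun ω => x (κ ω)) (nm r fun ω => y (κ ω)) := fun x y hxy =>
    hPY _ _ fun ω => hrr _ _ (hxy _)
  obtain ⟨f, hfc⟩ := chains hP hf (by omega)
  obtain ⟨p, σ, hpσ⟩ := gl (f := fun φ : Cell → Fin w => f (nm r fun ω => φ (κ ω)))
    (fun x y hxy hne => by
      rcases hfc _ (hnM x) _ (hnM y) hne with h | h
      · exact h (hdiff x y hxy)
      · exact h (hdiff y x fun p => (hxy p).symm)) (a := (⟨0, by omega⟩ : Fin w))
    (b := ⟨1, by omega⟩) (c := ⟨2, by omega⟩) (by simp) (by simp) (by simp)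
  obtain ⟨ω0, rfl⟩ : ∃ ω0, κ ω0 = p := by
    by_contra hne
    push Not at hne
    let φ : Cell → Fin w := fun _ => ⟨0, by omega⟩
    let ψ : Cell → Fin w := Function.update φ p ⟨1, by omega⟩
    have hv : (fun ω => φ (κ ω)) = fun ω => ψ (κ ω) := by
      funext ω
      simp only [ψ]
      rw [Function.update_of_ne (hne ω)]
    have h1 : σ (φ p) = σ (ψ p) := by
      rw [← hpσ, ← hpσ, hv]
    have h2 := σ.injective h1
    simp [φ, ψ] at h2
  have colu : ∀ u ∈ U, f (cst w u) = σ (ω0 u) := by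
    intro u hu
    by_contra hd
    obtain ⟨g, hg⟩ := hU u hu
    obtain ⟨π, hπ, hπb⟩ : ∃ π : Fin w → Fin w, (∀ c, π c ≠ c) ∧
        π (ω0 u) = σ.symm (f (cst w u)) := by
      have hne : ω0 u ≠ σ.symm (f (cst w u)) := fun hh => hd (by rw [hh]; simp)
      refine ⟨fun x => if x = σ.symm (f (cst w u)) then ω0 u else σ.symm (f (cst w u)),
        fun x => ?_, by simp [hne]⟩
      by_cases hx : x = σ.symm (f (cst w u))
      · simpa [hx] using hne
      · simpa [hx] using Ne.symm hx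
    have e1 : f (nm r fun ω => π (g (κ ω))) = f (cst w u) := by
      rw [hpσ fun p => π (g p), hg, hπb]
      simp
    rcases hfc _ (huM u hu) _ (hnM fun p => π (g p)) e1.symm with h | h
    · exact h (hY _ _ (hX _ _ (Or.inr ⟨u, hUA hu, π, hπ, Or.inl ⟨rfl, by
        funext ω; simp [nm, hg]⟩⟩)))
    · exact h (hY _ _ (hX _ _ (Or.inr ⟨u, hUA hu, π, hπ, Or.inr ⟨rfl, by
        funext ω; simp [nm, hg]⟩⟩)))
  refine h Y hY ω0 M (fun x => σ.symm (f x))
    ⟨hPY, hP, hf, fun c => hnM fun _ => c, hrr, fun x hx y hy hxy =>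
      hfc x hx y hy (σ.symm.injective hxy), fun c => ?_⟩ huM heM (fun u hu => ?_) (fun φ => ?_) hnM
  · show σ.symm (f (nm r fun ω => (fun _ => c) (κ ω))) = c
    rw [hpσ fun _ => c]
    simp
  · rw [colu u hu]
    simp
  · rw [hpσ φ]
    simp

end HW71
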