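import Pool.Agent.HW71.Leaf

/-!
# HW71/Main : Hajós-k-constructions of length `C n ^ 3` for digraphs with a clique at which all vertices are anchored
-/

namespace HW71

open HJ71 HM71

variable {V : Type} {w : ℕ} {adj : V → V → Prop} {r : Fin w → V} {p : ℕ}

/-- all levels -/
theorem levels (J : Finset V) : (∀ v ∈ J, SA adj r p v) → ∀ {l : List Dig}, Bas (w + 1) l →
    Clo l (Lv adj r (J : Set V)) →
    Der (w + 1) (J.card * (2 ^ (p * p) * 5)) l (Lv adj r (∅ : Set V)) := by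
  classical
  induction J using Finset.induction_on with
  | empty =>
    intro _ l _ h
    refine (Der.of_clo (h.le fun x y hxy => ?_)).up (Nat.zero_le _)
    simpa using hxy
  | insert v J hv ih =>
    intro hJ l hb h
    rw [Finset.card_insert_of_notMem hv]
    have h1 := level hb (J := (J : Set V)) (v := v) (hJ v (Finset.mem_insert_self _ _))
      (h.le fun x y hxy => by simpa using hxy)
    refine (Der.bind h1 fun l' hl' hc =>
      ih (fun u hu => hJ u (Finset.mem_insert_of_mem hu)) (hb.sub hl') hc).up ?_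
    ring_nf
    exact le_rfl

/-- the constant -/
def CC (w p : ℕ) : ℕ := 8 * (2 * (w * w * (Kc w * 10)) + 2 ^ (p * p) * 5 + 1)

theorem arith (n A B : ℕ) (hn : 1 ≤ n) :
    (n + 1) * (n * n * A) + (n * n + 1) * A + n * B + n ≤ 8 * (2 * A + B + 1) * n ^ 3 := by
  obtain ⟨m, rfl⟩ : ∃ m, n = m + 1 := ⟨n - 1, by omega⟩
  have e1 : (m + 1 + 1) * ((m + 1) * (m + 1) * A) ≤ 8 * A * (m + 1) ^ 3 := by
    have : (m + 1 + 1) * ((m + 1) * (m + 1)) ≤ 8 * (m + 1) ^ 3 := by nlinarith [Nat.zero_le m, Nat.zero_le (m * m), Nat.zero_le (m * m * m)]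
    calc (m + 1 + 1) * ((m + 1) * (m + 1) * A) = ((m + 1 + 1) * ((m + 1) * (m + 1))) * A := by ring
      _ ≤ (8 * (m + 1) ^ 3) * A := Nat.mul_le_mul_right _ this
      _ = 8 * A * (m + 1) ^ 3 := by ring
  have e2 : ((m + 1) * (m + 1) + 1) * A ≤ 8 * A * (m + 1) ^ 3 := by
    have : (m + 1) * (m + 1) + 1 ≤ 8 * (m + 1) ^ 3 := by nlinarith [Nat.zero_le m, Nat.zero_le (m * m), Nat.zero_le (m * m * m)]
    calc ((m + 1) * (m + 1) + 1) * A ≤ (8 * (m + 1) ^ 3) * A := Nat.mul_le_mul_right _ this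
      _ = 8 * A * (m + 1) ^ 3 := by ring
  have e3 : (m + 1) * B ≤ 8 * B * (m + 1) ^ 3 := by
    have : (m + 1) ≤ 8 * (m + 1) ^ 3 := by nlinarith [Nat.zero_le m, Nat.zero_le (m * m), Nat.zero_le (m * m * m)]
    calc (m + 1) * B ≤ (8 * (m + 1) ^ 3) * B := Nat.mul_le_mul_right _ this
      _ = 8 * B * (m + 1) ^ 3 := by ring
  have e4 : (m + 1) ≤ 8 * (m + 1) ^ 3 := by nlinarith [Nat.zero_le m, Nat.zero_le (m * m), Nat.zero_le (m * m * m)]
  calc _ ≤ 8 * A * (m + 1) ^ 3 + 8 * A * (m + 1) ^ 3 + 8 * B * (m + 1) ^ 3 + 8 * (m + 1) ^ 3 := by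
        omega
    _ = _ := by ring

theorem main (hw : 3 ≤ w) (D : Dig) (r : Fin w → D.V)
    (hrr : ∀ c c', c ≠ c' → D.adj (r c) (r c')) (S : Set D.V) (hS : ∀ v ∈ S, SA D.adj r p v)
    (hD : ¬ Dicolorable (ind D S) w) :
    ∃ H : Dig, IsSub H D ∧ ConstructibleIn (w + 1) (CC w p * Nat.card D.V ^ 3) H := by
  classical
  have := D.fin
  have := Fintype.ofFinite D.V
  let A : Finset D.V := Finset.univ.filter fun v => v ∈ S
  have hAS : ∀ v, v ∈ A ↔ v ∈ S := fun v => by simp [A]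
  have hno : ∀ ω : D.V → Fin w, ∃ u ∈ A, ∃ v ∈ A, D.adj u v ∧
      Relation.TransGen (fun x y => x ∈ A ∧ y ∈ A ∧ D.adj x y ∧ ω x = ω y) v u := by
    intro ω
    by_contra hne
    push Not at hne
    refine hD ⟨fun x => ω x.1, fun i hi => ?_⟩
    obtain ⟨x, hx⟩ := hi
    have hx' : Relation.TransGen (fun x y => x ∈ A ∧ y ∈ A ∧ D.adj x y ∧ ω x = ω y) x.1 x.1 :=
      Relation.TransGen.lift (fun z : (ind D S).V => z.1) (fun a b h =>
        ⟨(hAS _).2 a.2, (hAS _).2 b.2, h.2.2, h.1.trans h.2.1.symm⟩) _ _ hx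
    obtain ⟨y, h1, h2⟩ := Relation.TransGen.head'_iff.1 hx'
    rcases Relation.reflTransGen_iff_eq_or_transGen.1 h2 with h | h
    · rw [h] at h1
      exact D.irr _ h1.2.2.1
    · exact hne x.1 h1.1 y h1.2.1 h1.2.2.1 h
  let T0 : Dig := ⟨Fin (w + 1), inferInstance, fun x y => x ≠ y, fun v h => h rfl⟩
  have hT0 : IsComplete (w + 1) T0 := ⟨by simp [T0], fun _ _ => Iff.rfl⟩
  have hb : Bas (w + 1) [T0] := ⟨T0, List.mem_cons_self, hT0⟩
  obtain ⟨l1, e1, h1⟩ := leaf hrr hb hw hno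
  obtain ⟨l2, e2, h2⟩ := levels A (fun v hv => hS v ((hAS v).1 hv)) (hb.ext e1) h1 l1
    fun T h => h
  have h3 : Clo l2 D.adj := by
    refine h2.hom (fun x => x fun _ => ⟨0, by omega⟩) ?_
    rintro x y (h | ⟨v, hv, _⟩)
    · exact h _
    · exact absurd hv (by simp)
  obtain ⟨m2, st2, hm2⟩ := (e1.trans e2).2 0 (Steps.base T0 Steps.nil hT0)
  obtain ⟨T, hT, φ, hφ⟩ := h3
  obtain ⟨e⟩ : Nonempty (D.V ≃ Fin (Nat.card D.V)) := ⟨Finite.equivFin D.V⟩
  obtain ⟨l3, m3, st3, _, hm3, T', hT', ψ, hψ, hψE⟩ := merge_all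
    (fun a b => D.adj (e.symm a) (e.symm b)) (fun a => D.irr _) l2 m2 st2 T hT (fun v => e (φ v))
    (fun a b hab => by simpa using hφ a b hab)
  obtain ⟨l4, m4, st4, hm4⟩ := steps_suffix st3 T' hT'
  refine ⟨T', ⟨fun a => e.symm (ψ a), e.symm.injective.comp hψ, fun x y hxy => hψE x y hxy⟩,
    T', l4, m4, st4, ?_, Equiv.refl _, fun _ _ => Iff.rfl⟩
  have hn : 1 ≤ Fintype.card D.V := Fintype.card_pos_iff.2 ⟨r ⟨0, by omega⟩⟩
  have ha := arith (Fintype.card D.V) (w * w * (Kc w * 10)) (2 ^ (p * p) * 5) hn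
  rw [Nat.card_eq_fintype_card] at hm3 ⊢
  have hAc : A.card * (2 ^ (p * p) * 5) ≤ Fintype.card D.V * (2 ^ (p * p) * 5) :=
    Nat.mul_le_mul_right _ (Finset.card_le_univ A)
  unfold CC
  omega

end HW71
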