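import Pool.Agent.HW71.GL
import Pool.Agent.HW71.Loc
import Pool.Agent.HW71.Defs
import Pool.Agent.HJ71.Dil

/-!
# HW71/Sem : local states with a frame

A frame is a pair of lists `t`, `s` of `w` vertices with `t c`, `t c'` / `s c`, `s c'` / `t c`, `s c'` joined both ways for
`c ≠ c'`. A vertex `x` is inside the frame if it is one of the `t c`, `s c` or is dominated by each `t c` and dominates each
`s c`. A local state is a target `Y` whose non-arcs form a preorder on the finite set `M`, with no complete digraph on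
`w + 1` vertices in `M`. Each element inside a frame has a unique colour; two of them are joined both ways iff the colours
differ.
-/

namespace HW71

open HJ71 HM71

variable {V : Type} {w : ℕ}

section local_state

variable {W : Type}

/-- no complete digraph on `w + 1` vertices -/
def Free (w : ℕ) (M : Finset W) (Y : W → W → Prop) : Prop :=
  ¬ ∃ f : Fin (w + 1) → W, (∀ i, f i ∈ M) ∧ ∀ i j, i ≠ j → Y (f i) (f j)

/-- a local state with a frame -/
structure St (M : Finset W) (Y : W → W → Prop) (T S : Fin w → W) : Prop where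
  pre : PreOn M Y
  free : Free w M Y
  tM : ∀ c, T c ∈ M
  sM : ∀ c, S c ∈ M
  fra : Fra Y T S

/-- `x` has colour `c` with respect to the clique `g` -/
def Col (M : Finset W) (Y : W → W → Prop) (g : Fin w → W) (x : W) (c : Fin w) : Prop :=
  x ∈ M ∧ ∀ c', c' ≠ c → Y x (g c') ∧ Y (g c') x

variable {M : Finset W} {Y : W → W → Prop} {T S : Fin w → W}

theorem clique_ext (h : Free w M Y)
    {x : W} (hx : x ∈ M) {g : Fin w → W} (hg : ∀ c, g c ∈ M)
    (hgg : ∀ c c', c ≠ c' → Y (g c) (g c')) : ∃ c, ¬ (Y x (g c) ∧ Y (g c) x) := by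
  by_contra hne
  push Not at hne
  refine h ⟨Fin.cons x g, fun i => ?_, fun i j hij => ?_⟩
  · refine Fin.cases ?_ (fun i => ?_) i
    · simpa using hx
    · simpa using hg i
  · revert hij
    refine Fin.cases ?_ (fun i => ?_) i
    · refine Fin.cases ?_ (fun j => ?_) j
      · intro h; exact absurd rfl h
      · intro _; simpa using (hne j).1
    · refine Fin.cases ?_ (fun j => ?_) j
      · intro _; simpa using (hne i).2
      · intro hij
        simpa using hgg i j fun h => hij (by rw [h])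

/-- elements of the same colour are not joined both ways -/
theorem same (h : Free w M Y) {g : Fin w → W} (hg : ∀ c, g c ∈ M)
    (hgg : ∀ c c', c ≠ c' → Y (g c) (g c')) {x y : W} {c : Fin w} (hx : Col M Y g x c)
    (hy : Col M Y g y c) : ¬ (Y x y ∧ Y y x) := by
  classical
  rintro ⟨h1, h2⟩
  obtain ⟨c', hc'⟩ := clique_ext h hx.1 (g := Function.update g c y)
    (fun d => by
      by_cases hd : d = c
      · subst hd; simpa using hy.1
      · simpa [hd] using hg d)
    (fun d d' hdd => by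
      by_cases hd : d = c
      · subst hd
        have hd' : d' ≠ d := hdd.symm
        simpa [hd'] using (hy.2 d' hd').1
      · by_cases hd' : d' = c
        · subst hd'
          simpa [hd] using (hy.2 d hd).2
        · simpa [hd, hd'] using hgg d d' hdd)
  by_cases hd : c' = c
  · subst hd
    simp at hc'
    exact hc' h1 h2
  · simp [hd] at hc'
    exact hc' (hx.2 c' hd).1 (hx.2 c' hd).2

theorem uniq (h : Free w M Y) {g : Fin w → W} (hg : ∀ c, g c ∈ M)
    (hgg : ∀ c c', c ≠ c' → Y (g c) (g c')) {x : W} {c d : Fin w} (h1 : Col M Y g x c)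
    (h2 : Col M Y g x d) : c = d := by
  by_contra hne
  exact same h hg hgg (x := x) (y := g c) (c := c) h1
    ⟨hg c, fun c' hc' => ⟨hgg _ _ hc'.symm, hgg _ _ hc'⟩⟩ (h2.2 c hne)

/-- the colour of an element inside the frame -/
theorem St.col (h : St M Y T S) {x : W} (hx : x ∈ M) (hi : Ins Y T S x) :
    ∃ c, Col M Y T x c ∧ ∀ d, d ≠ c → Y x (S d) ∧ Y (S d) x := by
  rcases hi with ⟨c, rfl⟩ | ⟨c, rfl⟩ | hm
  · exact ⟨c, ⟨hx, fun d hd => ⟨h.fra.tt _ _ hd.symm, h.fra.tt _ _ hd⟩⟩,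
      fun d hd => ⟨h.fra.ts _ _ hd.symm, h.fra.st _ _ hd⟩⟩
  · exact ⟨c, ⟨hx, fun d hd => ⟨h.fra.st _ _ hd.symm, h.fra.ts _ _ hd⟩⟩,
      fun d hd => ⟨h.fra.ss _ _ hd.symm, h.fra.ss _ _ hd⟩⟩
  · obtain ⟨c, hc⟩ := clique_ext h.free hx h.tM h.fra.tt
    obtain ⟨c', hc'⟩ := clique_ext h.free hx h.sM h.fra.ss
    have h1 : ¬ Y x (T c) := fun h1 => hc ⟨h1, (hm c).1⟩
    have h2 : ¬ Y (S c') x := fun h2 => hc' ⟨(hm c').2, h2⟩
    have key : ∀ d d', ¬ Y x (T d) → ¬ Y (S d') x → d' = d := by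
      intro d d' g1 g2
      by_contra hne
      exact h.pre.2 _ (h.sM d') _ hx _ (h.tM d) g2 g1 (h.fra.st _ _ hne)
    have hcc := key c c' h1 h2
    subst hcc
    refine ⟨c', ⟨hx, fun d hd => ⟨?_, (hm d).1⟩⟩, fun d hd => ⟨(hm d).2, ?_⟩⟩
    · by_contra g
      exact hd (key d c' g h2).symm
    · by_contra g
      exact hd (key c' d h1 g)

/-- elements of different colours are joined both ways -/
theorem St.diff (h : St M Y T S) {x y : W} {c d : Fin w} (hx : Ins Y T S x) (hy : Ins Y T S y)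
    (hxc : Col M Y T x c) (hyd : Col M Y T y d) (hcd : c ≠ d) : Y x y ∧ Y y x := by
  have uni := fun (z : W) (e e' : Fin w) (h1 : Col M Y T z e) (h2 : Col M Y T z e') =>
    uniq h.free h.tM h.fra.tt h1 h2
  have colS : ∀ z e, Ins Y T S z → Col M Y T z e → ∀ e', e' ≠ e → Y z (S e') ∧ Y (S e') z := by
    intro z e hz hze e' he
    obtain ⟨e2, h3, h4⟩ := h.col hze.1 hz
    rw [uni _ _ _ hze h3] at he
    exact h4 e' he
  rcases hx with ⟨c', rfl⟩ | ⟨c', rfl⟩ | hm
  · have : c = c' := uni _ _ _ hxc ⟨hxc.1, fun e he => ⟨h.fra.tt _ _ he.symm, h.fra.tt _ _ he⟩⟩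
    subst this
    exact ⟨(hyd.2 c hcd).2, (hyd.2 c hcd).1⟩
  · have : c = c' := uni _ _ _ hxc ⟨hxc.1, fun e he => ⟨h.fra.st _ _ he.symm, h.fra.ts _ _ he⟩⟩
    subst this
    exact ⟨(colS _ _ hy hyd c hcd).2, (colS _ _ hy hyd c hcd).1⟩
  · rcases hy with ⟨d', rfl⟩ | ⟨d', rfl⟩ | hn
    · have : d = d' := uni _ _ _ hyd ⟨hyd.1, fun e he => ⟨h.fra.tt _ _ he.symm, h.fra.tt _ _ he⟩⟩
      subst this
      exact ⟨(hxc.2 d hcd.symm).1, (hxc.2 d hcd.symm).2⟩
    · have : d = d' := uni _ _ _ hyd ⟨hyd.1, fun e he => ⟨h.fra.st _ _ he.symm, h.fra.ts _ _ he⟩⟩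
      subst this
      exact colS _ _ (Or.inr (Or.inr hm)) hxc d hcd.symm
    · have key : ∀ x y c d, (∀ c, Y (T c) x ∧ Y x (S c)) → (∀ c, Y (T c) y ∧ Y y (S c)) →
          Col M Y T x c → Col M Y T y d → c ≠ d → Y x y := by
        intro x y c d hm hn hxc hyd hcd
        obtain ⟨c1, h1⟩ := clique_ext h.free hxc.1 h.sM h.fra.ss
        obtain ⟨d1, h2⟩ := clique_ext h.free hyd.1 h.tM h.fra.tt
        have e1 : c1 = c := by
          by_contra hne
          exact h1 (colS _ _ (Or.inr (Or.inr hm)) hxc c1 hne)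
        have e2 : d1 = d := by
          by_contra hne
          exact h2 (hyd.2 d1 hne)
        subst e1 e2
        by_contra hxy
        exact h.pre.2 _ (h.sM c1) _ hxc.1 _ (h.tM d1) (fun hh => h1 ⟨(hm c1).2, hh⟩)
          (fun h3 => h.pre.2 _ hxc.1 _ hyd.1 _ (h.tM d1) hxy (fun hh => h2 ⟨hh, (hn d1).1⟩) h3)
          (h.fra.st _ _ hcd)
      exact ⟨key x y c d hm hn hxc hyd hcd, key y x d c hn hm hyd hxc hcd.symm⟩

/-- an element inside the frame has a colour with respect to any clique inside the frame -/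
theorem St.colR (h : St M Y T S) {g : Fin w → W} (hgM : ∀ c, g c ∈ M)
    (hgg : ∀ c c', c ≠ c' → Y (g c) (g c')) (hg : ∀ c, Ins Y T S (g c)) {x : W} (hx : x ∈ M)
    (hi : Ins Y T S x) : ∃ c, Col M Y g x c := by
  choose σ hσ _ using fun c => h.col (hgM c) (hg c)
  have hinj : Function.Injective σ := by
    intro c c' hcc
    by_contra hne
    refine same h.free h.tM h.fra.tt (hσ c) (y := g c') (by rw [hcc]; exact hσ c')
      ⟨hgg _ _ hne, hgg _ _ (Ne.symm hne)⟩
  obtain ⟨c1, hc1, _⟩ := h.col hx hi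
  obtain ⟨c0, hc0⟩ := (Finite.injective_iff_surjective.1 hinj) c1
  refine ⟨c0, hx, fun c' hc' => h.diff hi (hg c') hc1 (hσ c') fun hh => hc' ?_⟩
  exact hinj (hh.symm.trans hc0.symm)

end local_state

open Classical in
/-- at most `p` vertices force the colour of `v` with respect to `r` in every local state -/
def SA (adj : V → V → Prop) (r : Fin w → V) (p : ℕ) (v : V) : Prop :=
  ∃ B : Finset V, B.card ≤ p ∧ v ∈ B ∧ (∀ c, r c ∈ B) ∧
    ∀ (W : Type) (e : V → W) (M : Finset W) (Y : W → W → Prop), (∀ x ∈ B, e x ∈ M) →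
      (∀ x y, adj x y → Y (e x) (e y)) → PreOn M Y → Free w M Y →
      ∃ c, Col M Y (fun c => e (r c)) (e v) c

theorem Fra.map {adj : V → V → Prop} {t s : Fin w → V} (hF : Fra adj t s) {W : Type} {e : V → W}
    {Y : W → W → Prop} (hY : ∀ x y, adj x y → Y (e x) (e y)) :
    Fra Y (fun c => e (t c)) (fun c => e (s c)) :=
  ⟨fun c c' h => hY _ _ (hF.tt c c' h), fun c c' h => hY _ _ (hF.ss c c' h),
    fun c c' h => hY _ _ (hF.st c c' h), fun c c' h => hY _ _ (hF.ts c c' h)⟩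

theorem Ins.map {adj : V → V → Prop} {t s : Fin w → V} {x : V} (h : Ins adj t s x) {W : Type}
    {e : V → W} {Y : W → W → Prop} (hY : ∀ x y, adj x y → Y (e x) (e y)) :
    Ins Y (fun c => e (t c)) (fun c => e (s c)) (e x) := by
  rcases h with ⟨c, rfl⟩ | ⟨c, rfl⟩ | h
  · exact Or.inl ⟨c, rfl⟩
  · exact Or.inr (Or.inl ⟨c, rfl⟩)
  · exact Or.inr (Or.inr fun c => ⟨hY _ _ (h c).1, hY _ _ (h c).2⟩)

theorem card_img {α : Type} [DecidableEq α] (f : Fin w → α) :
    (Finset.univ.image f).card ≤ w := by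
  simpa using Finset.card_image_le (s := Finset.univ) (f := f)

open Classical in
theorem SA.base {adj : V → V → Prop} {t s r : Fin w → V} {v : V} (hF : Fra adj t s)
    (hv : Ins adj t s v) (hr : ∀ c, Ins adj t s (r c))
    (hrr : ∀ c c', c ≠ c' → adj (r c) (r c')) : SA adj r (3 * w + 1) v := by
  refine ⟨insert v ((Finset.univ.image t) ∪ (Finset.univ.image s) ∪ (Finset.univ.image r)), ?_,
    by simp, fun c => by simp, ?_⟩
  · refine (Finset.card_insert_le _ _).trans ?_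
    have a1 := Finset.card_union_le ((Finset.univ.image t) ∪ (Finset.univ.image s))
      (Finset.univ.image r)
    have a2 := Finset.card_union_le (Finset.univ.image t) (Finset.univ.image s)
    have a3 := card_img t
    have a4 := card_img s
    have a5 := card_img r
    omega
  · intro W e M Y hM hY hP hf
    have hS : St M Y (fun c => e (t c)) (fun c => e (s c)) :=
      ⟨hP, hf, fun c => hM _ (by simp), fun c => hM _ (by simp), hF.map hY⟩
    exact hS.colR (fun c => hM _ (by simp)) (fun c c' h => hY _ _ (hrr c c' h))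
      (fun c => (hr c).map hY) (hM _ (by simp)) (hv.map hY)

open Classical in
theorem SA.step {adj : V → V → Prop} {t s r : Fin w → V} {v : V} {p : ℕ} (hF : Fra adj t s)
    (hv : Ins adj t s v) (ht : ∀ c, SA adj r p (t c)) (hs : ∀ c, SA adj r p (s c))
    (hrr : ∀ c c', c ≠ c' → adj (r c) (r c')) : SA adj r (2 * w * p + 1) v := by
  choose Bt t1 t2 t3 t4 using ht
  choose Bs s1 s2 s3 s4 using hs
  refine ⟨insert v ((Finset.univ.biUnion Bt) ∪ (Finset.univ.biUnion Bs)), ?_, by simp,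
    fun c => ?_, ?_⟩
  · refine (Finset.card_insert_le _ _).trans ?_
    have a1 := Finset.card_union_le (Finset.univ.biUnion Bt) (Finset.univ.biUnion Bs)
    have a2 := Finset.card_biUnion_le_card_mul Finset.univ Bt p fun c _ => t1 c
    have a3 := Finset.card_biUnion_le_card_mul Finset.univ Bs p fun c _ => s1 c
    rw [Finset.card_univ, Fintype.card_fin] at a2 a3
    have a4 : 2 * w * p = w * p + w * p := by ring
    omega
  · exact Finset.mem_insert_of_mem (Finset.mem_union_left _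
      (Finset.mem_biUnion.2 ⟨c, Finset.mem_univ _, t3 c c⟩))
  · intro W e M Y hM hY hP hf
    have hBt : ∀ c, ∀ x ∈ Bt c, e x ∈ M := fun c x hx => hM _ (Finset.mem_insert_of_mem
      (Finset.mem_union_left _ (Finset.mem_biUnion.2 ⟨c, Finset.mem_univ _, hx⟩)))
    have hBs : ∀ c, ∀ x ∈ Bs c, e x ∈ M := fun c x hx => hM _ (Finset.mem_insert_of_mem
      (Finset.mem_union_right _ (Finset.mem_biUnion.2 ⟨c, Finset.mem_univ _, hx⟩)))
    have hS : St M Y (fun c => e (t c)) (fun c => e (s c)) :=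
      ⟨hP, hf, fun c => hBt c _ (t2 c), fun c => hBs c _ (s2 c), hF.map hY⟩
    have hrM : ∀ c, e (r c) ∈ M := fun c => hBt c _ (t3 c c)
    have hgg : ∀ c c', c ≠ c' → Y (e (r c)) (e (r c')) := fun c c' h => hY _ _ (hrr c c' h)
    choose τ hτ using fun c => t4 c W e M Y (hBt c) hY hP hf
    choose ρ hρ using fun c => s4 c W e M Y (hBs c) hY hP hf
    have hinj : Function.Injective τ := by
      intro c c' hcc
      by_contra hne
      exact same hf hrM hgg (hτ c) (y := e (t c')) (by rw [hcc]; exact hτ c')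
        ⟨hS.fra.tt _ _ hne, hS.fra.tt _ _ (Ne.symm hne)⟩
    have hρτ : ∀ c, ρ c = τ c := by
      intro c
      obtain ⟨c', hc'⟩ := (Finite.injective_iff_surjective.1 hinj) (ρ c)
      by_cases h : c' = c
      · rw [← hc', h]
      · refine absurd ⟨?_, ?_⟩ (same hf hrM hgg (hρ c) (y := e (t c'))
          (by rw [← hc']; exact hτ c'))
        · exact hS.fra.st _ _ (Ne.symm h)
        · exact hS.fra.ts _ _ h
    rcases hv with ⟨c, rfl⟩ | ⟨c, rfl⟩ | hm
    · exact ⟨_, hτ c⟩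
    · exact ⟨_, hρ c⟩
    · have hvM : e v ∈ M := hM _ (by simp)
      obtain ⟨c, hc⟩ := clique_ext hf hvM hS.tM hS.fra.tt
      obtain ⟨c', hc'⟩ := clique_ext hf hvM hS.sM hS.fra.ss
      have h1 : ¬ Y (e v) (e (t c)) := fun h1 => hc ⟨h1, hY _ _ (hm c).1⟩
      have h2 : ¬ Y (e (s c')) (e v) := fun h2 => hc' ⟨hY _ _ (hm c').2, h2⟩
      have hcc : c' = c := by
        by_contra hne
        exact hP.2 _ (hS.sM c') _ hvM _ (hS.tM c) h2 h1 (hS.fra.st _ _ hne)
      subst hcc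
      refine ⟨τ c', hvM, fun d hd => ⟨?_, ?_⟩⟩
      · by_contra h3
        refine hP.2 _ (hS.sM c') _ hvM _ (hrM d) h2 h3 ?_
        exact ((hρ c').2 d (by rw [hρτ]; exact hd)).1
      · by_contra h3
        refine hP.2 _ (hrM d) _ hvM _ (hS.tM c') h3 h1 ?_
        exact ((hτ c').2 d hd).2

theorem SA.mono {adj : V → V → Prop} {r : Fin w → V} {p p' : ℕ} {v : V} (h : SA adj r p v)
    (hp : p ≤ p') : SA adj r p' v := by
  obtain ⟨B, h1, h2⟩ := h
  exact ⟨B, h1.trans hp, h2⟩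

theorem Anchored.sa {D : Dig} {r : Fin w → D.V} {p : ℕ} {v : D.V} (h : Anchored D r p v) :
    SA D.adj r p v := by
  obtain ⟨B, h1, h2, h3, h4⟩ := h
  refine ⟨B, h1, h2, h3, fun W e M Y hM hY hP hf => ?_⟩
  obtain ⟨c, hc⟩ := h4 (fun x y => ¬ Y (e x) (e y)) (fun x hx => hP.1 _ (hM x hx))
    (fun x hx y hy z hz => hP.2 _ (hM x hx) _ (hM y hy) _ (hM z hz))
    (fun x _ y _ hxy hn => hn (hY x y hxy)) (by
      rintro ⟨f, hf1, hf2⟩
      exact hf ⟨fun i => e (f i), fun i => hM _ (hf1 i), fun i j hij => not_not.1 (hf2 i j hij)⟩)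
  exact ⟨c, hM _ h2, fun c' hc' => ⟨not_not.1 (hc c' hc').1, not_not.1 (hc c' hc').2⟩⟩

open Classical in
/-- arcs to and from all but at most one of the `r c` -/
theorem SA.near {adj : V → V → Prop} {r : Fin w → V} {v : V} {a b : Fin w}
    (h1 : ∀ c, c ≠ a → adj v (r c)) (h2 : ∀ c, c ≠ b → adj (r c) v)
    (hrr : ∀ c c', c ≠ c' → adj (r c) (r c')) : SA adj r (w + 1) v := by
  refine ⟨insert v (Finset.univ.image r), (Finset.card_insert_le _ _).trans
    (Nat.add_le_add_right (card_img r) 1), by simp, fun c => by simp, ?_⟩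
  intro W e M Y hM hY hP hf
  have hvM : e v ∈ M := hM _ (by simp)
  have hrM : ∀ c, e (r c) ∈ M := fun c => hM _ (by simp)
  obtain ⟨c, hc⟩ := clique_ext hf hvM hrM (fun c c' h => hY _ _ (hrr c c' h))
  have key : ∀ c, ¬ (Y (e v) (e (r c)) ∧ Y (e (r c)) (e v)) → ∀ c', c' ≠ c →
      Y (e v) (e (r c')) ∧ Y (e (r c')) (e v) := by
    intro c hc c' hc'
    by_contra hn
    -- two elements of the clique comparable with `v`
    have low : ∀ d, ¬ Y (e v) (e (r d)) → d = a := fun d hd => by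
      by_contra hne
      exact hd (hY _ _ (h1 d hne))
    have high : ∀ d, ¬ Y (e (r d)) (e v) → d = b := fun d hd => by
      by_contra hne
      exact hd (hY _ _ (h2 d hne))
    rw [not_and_or] at hc hn
    rcases hc with hc | hc <;> rcases hn with hn | hn
    · exact hc' ((low _ hn).trans (low _ hc).symm)
    · exact hP.2 _ (hrM c') _ hvM _ (hrM c) hn hc (hY _ _ (hrr _ _ hc'))
    · exact hP.2 _ (hrM c) _ hvM _ (hrM c') hc hn (hY _ _ (hrr _ _ (Ne.symm hc')))
    · exact hc' ((high _ hn).trans (high _ hc).symm)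
  exact ⟨c, hvM, fun c' hc' => key c hc c' hc'⟩

theorem AnchoredAt.sa {D : Dig} {r : Fin w → D.V} {p : ℕ} {v : D.V} (h : AnchoredAt D r p v)
    (hrr : ∀ c c', c ≠ c' → D.adj (r c) (r c')) : SA D.adj r (p + (3 * w + 1)) v := by
  rcases h with ⟨a, b, h1, h2⟩ | ⟨t, s, hF, hv, hr⟩ | hv
  · exact (SA.near h1 h2 hrr).mono (by omega)
  · exact (SA.base hF hv hr hrr).mono (by omega)
  · exact hv.sa.mono (by omega)

/-- Dilworth -/
theorem chains {W : Type} {M : Finset W} {Y : W → W → Prop} (hP : PreOn M Y) (hf : Free w M Y)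
    (hw : 0 < w) : ∃ f : W → Fin w, ∀ x ∈ M, ∀ y ∈ M, f x = f y → ¬ Y x y ∨ ¬ Y y x := by
  classical
  obtain ⟨c, hc⟩ := dilworth (V := M) (fun x y => ¬ Y x.1 y.1) (fun x => hP.1 _ x.2)
    (fun x y z => hP.2 _ x.2 _ y.2 _ z.2) w (fun A hA => by
      by_contra hlt
      obtain ⟨B, hB, hBc⟩ := Finset.exists_subset_card_eq (show w + 1 ≤ A.card by omega)
      obtain ⟨e⟩ : Nonempty (Fin (w + 1) ≃ B) :=
        ⟨(Fintype.equivFinOfCardEq (by simpa using hBc)).symm⟩
      exact hf ⟨fun i => (e i).1.1, fun i => (e i).1.2, fun i j hij => not_not.1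
        (hA _ (hB (e i).2) _ (hB (e j).2) fun h => hij (e.injective (Subtype.ext h)))⟩)
  refine ⟨fun x => if h : x ∈ M then c ⟨x, h⟩ else ⟨0, hw⟩, fun x hx y hy hxy => ?_⟩
  simp only [hx, hy, dif_pos] at hxy
  exact hc ⟨x, hx⟩ ⟨y, hy⟩ hxy

/-- some of the six forms of a Boolean name is joined both ways to its constant -/
theorem forms {W C : Type} {M : Finset W} {Y : W → W → Prop} (hP : PreOn M Y) (η : C → C → W)
    (ρ : C → W) (hη : ∀ a b, η a b ∈ M) (hρ : ∀ b, ρ b ∈ M)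
    (s1 : ∀ a b c, a ≠ b → a ≠ c → ¬ Y (η a b) (η a c) ∨ ¬ Y (η a c) (η a b))
    (s2 : ∀ d b, d ≠ b → ¬ Y (ρ d) (η d b) ∨ ¬ Y (η d b) (ρ d))
    (d1 : ∀ a b c, a ≠ b → a ≠ c → b ≠ c → Y (η a c) (ρ b) ∧ Y (ρ b) (η a c))
    (d2 : ∀ a b d, a ≠ d → d ≠ b → Y (η a d) (η d b)) (d3 : ∀ b d, b ≠ d → Y (ρ b) (ρ d))
    {x y z : C} (hxy : x ≠ y) (hxz : x ≠ z) (hyz : y ≠ z) :
    ∃ a b, a ≠ b ∧ Y (η a b) (ρ b) ∧ Y (ρ b) (η a b) := by
  by_contra hne
  have H : ∀ a b, a ≠ b → ¬ Y (η a b) (ρ b) ∨ ¬ Y (ρ b) (η a b) := by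
    intro a b hab
    rw [← not_and_or]
    exact fun h => hne ⟨a, b, hab, h⟩
  have c1 : ∀ a b c, a ≠ b → a ≠ c → b ≠ c → ¬ Y (η a b) (ρ b) → ¬ Y (η a c) (ρ c) → False := by
    intro a b c hab hac hbc h1 h2
    rcases s1 a b c hab hac with h | h
    · exact hP.2 _ (hη a b) _ (hη a c) _ (hρ c) h h2 (d1 a c b hac hab hbc.symm).1
    · exact hP.2 _ (hη a c) _ (hη a b) _ (hρ b) h h1 (d1 a b c hab hac hbc).1
  have c2 : ∀ a b c, a ≠ b → a ≠ c → b ≠ c → ¬ Y (ρ b) (η a b) → ¬ Y (ρ c) (η a c) → False := by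
    intro a b c hab hac hbc h1 h2
    rcases s1 a b c hab hac with h | h
    · exact hP.2 _ (hρ b) _ (hη a b) _ (hη a c) h1 h (d1 a b c hab hac hbc).2
    · exact hP.2 _ (hρ c) _ (hη a c) _ (hη a b) h2 h (d1 a c b hac hab hbc.symm).2
  have c3 : ∀ a b d, a ≠ d → d ≠ b → ¬ Y (η a d) (ρ d) → ¬ Y (ρ b) (η d b) → False := by
    intro a b d had hdb h1 h2
    rcases s2 d b hdb with h | h
    · exact hP.2 _ (hη a d) _ (hρ d) _ (hη d b) h1 h (d2 a b d had hdb)
    · exact hP.2 _ (hρ b) _ (hη d b) _ (hρ d) h2 h (d3 b d hdb.symm)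
  have key : ∀ d e, x ≠ d → x ≠ e → d ≠ e → ¬ Y (η x d) (ρ d) → False := by
    intro d e hxd hxe hde h1
    have g1 : ¬ Y (η d x) (ρ x) := (H d x hxd.symm).resolve_right (c3 x x d hxd hxd.symm h1)
    have g2 : ¬ Y (η d e) (ρ e) := (H d e hde).resolve_right (c3 x e d hxd hde h1)
    exact c1 d x e hxd.symm hde hxe g1 g2
  have g1 : ¬ Y (ρ y) (η x y) := (H x y hxy).resolve_left (key y z hxy hxz hyz)
  have g2 : ¬ Y (ρ z) (η x z) := (H x z hxz).resolve_left (key z y hxz hxy hyz.symm)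
  exact c2 x y z hxy hxz hyz g1 g2

end HW71
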