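import Pool.Agent.HW71.LeafE
import Pool.Agent.HW71.Main

/-!
# HW71/Stage : bounded sets of exceptional vertices

`adjK κ`: the digraph with arcs which record the status `κ z` of each exceptional vertex `z`: a colour `c` (both arcs to all
`r c'`, `c' ≠ c`), or no colour (all arcs from the `r c`, or all arcs to the `r c`).
-/

namespace HW71

open HJ71 HM71

variable {V : Type} {w : ℕ} {adj : V → V → Prop} {r : Fin w → V} {A E : Finset V}

def stat (r : Fin w → V) (z : V) (s : Fin w ⊕ Bool) (x y : V) : Prop :=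
  match s with
  | Sum.inl c => ∃ c', c' ≠ c ∧ ((x = z ∧ y = r c') ∨ (x = r c' ∧ y = z))
  | Sum.inr true => ∃ c, x = r c ∧ y = z
  | Sum.inr false => ∃ c, x = z ∧ y = r c

def adjK (adj : V → V → Prop) (r : Fin w → V) (E : Finset V) (κ : V → Fin w ⊕ Bool)
    (x y : V) : Prop :=
  adj x y ∨ ∃ z ∈ E, stat r z (κ z) x y

theorem SA.adj_mono {adj' : V → V → Prop} {p : ℕ} {v : V} (h : SA adj r p v)
    (ha : ∀ x y, adj x y → adj' x y) : SA adj' r p v := by
  obtain ⟨B, h1, h2, h3, h4⟩ := h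
  exact ⟨B, h1, h2, h3, fun W e M Y hM hY => h4 W e M Y hM fun x y h => hY _ _ (ha _ _ h)⟩

theorem lift_sub {R : V → V → Prop} {S : Finset V} {Q : S → S → Prop}
    (hR : ∀ x y, R x y → x ∈ S ∧ y ∈ S)
    (h : ∀ x y (hx : x ∈ S) (hy : y ∈ S), R x y → Q ⟨x, hx⟩ ⟨y, hy⟩) {x y : V}
    (hxy : Relation.TransGen R x y) :
    ∃ hx hy, Relation.TransGen Q ⟨x, hx⟩ ⟨y, hy⟩ := by
  induction hxy with
  | single h1 => exact ⟨(hR _ _ h1).1, (hR _ _ h1).2, .single (h _ _ _ _ h1)⟩
  | tail _ h1 ih =>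
    obtain ⟨hx, _, h2⟩ := ih
    exact ⟨hx, (hR _ _ h1).2, .tail h2 (h _ _ _ _ h1)⟩

/-- every colouring has a monochromatic cycle in `S` -/
def NoCol (w : ℕ) (adj : V → V → Prop) (S : Set V) : Prop :=
  ∀ ω : V → Fin w, ∃ x, Relation.TransGen
    (fun x y => x ∈ S ∧ y ∈ S ∧ adj x y ∧ ω x = ω y) x x

theorem NoCol.adj_mono {adj' : V → V → Prop} {S : Set V} (h : NoCol w adj S)
    (ha : ∀ x y, adj x y → adj' x y) : NoCol w adj' S := fun ω => by
  obtain ⟨x, hx⟩ := h ω
  exact ⟨x, Relation.TransGen.mono (fun a b h => ⟨h.1, h.2.1, ha _ _ h.2.2.1, h.2.2.2⟩) _ _ hx⟩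

open Classical in
/-- the alternatives of the last level -/
theorem no_split [Nonempty V] {A EA EB EE : Finset V} (hEA : EA ⊆ EE) (hEB : EB ⊆ EE)
    (dA : ∀ x ∈ EA, x ∉ A) (dB : ∀ x ∈ EB, x ∉ A) (dE : ∀ x ∈ EA, x ∉ EB) {S : Set V}
    (hS : ∀ x ∈ S, x ∈ A ∨ x ∈ EA ∨ x ∈ EB) (hno : NoCol w adj S) (ω : V → Fin w) :
    (∃ u ∈ A, ∃ v ∈ A, adj u v ∧
      Relation.TransGen (fun x y => x ∈ A ∧ y ∈ A ∧ adj x y ∧ ω x = ω y) v u) ∨
      ∃ t : EE × Fin w → V, yt adj A EA EB EE t ω := by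
  refine or_iff_not_imp_left.2 fun h1 => ?_
  have ht : ∀ q : EE × Fin w, ∃ u : V, ∀ u', Hit adj A EA EB q.1.1 u' q.2 ω →
      Hit adj A EA EB q.1.1 u q.2 ω := by
    intro q
    by_cases h : ∃ u', Hit adj A EA EB q.1.1 u' q.2 ω
    · obtain ⟨u, hu⟩ := h
      exact ⟨u, fun _ _ => hu⟩
    · exact ⟨Classical.arbitrary V, fun u' h' => absurd ⟨u', h'⟩ h⟩
  choose t ht using ht
  refine ⟨t, fun g => ?_⟩
  by_contra hne
  have hne' : ∀ (z : EE) (u : V), ¬ Hit adj A EA EB z.1 u (g z) ω := fun z u h =>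
    hne (Or.inl ⟨z, ht (z, g z) u h⟩)
  let ω' : V → Fin w := fun x => if h : x ∈ EE ∧ x ∉ A then g ⟨x, h.1⟩ else ω x
  have oA : ∀ x ∈ A, ω' x = ω x := fun x hx => by simp [ω', hx]
  have oE : ∀ x (hx : x ∈ EE), x ∉ A → ω' x = g ⟨x, hx⟩ := fun x hx hA => by simp [ω', hx, hA]
  have hbad : ¬ BadG adj EA EB EE g := fun hb => hne (Or.inr hb)
  let lam : V → ℕ := fun x => if x ∈ A then 1 else if x ∈ EA then 0 else 2
  have lA : ∀ x ∈ A, lam x = 1 := fun x hx => by simp [lam, hx]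
  have lEA : ∀ x ∈ EA, lam x = 0 := fun x hx => by simp [lam, dA x hx, hx]
  have lEB : ∀ x ∈ EB, lam x = 2 := fun x hx => by
    have : x ∉ EA := fun h => dE x h hx
    simp [lam, dB x hx, this]
  obtain ⟨x, hx⟩ := hno ω'
  have hR : ∀ x y, (x ∈ S ∧ y ∈ S ∧ adj x y ∧ ω' x = ω' y) → lam y ≤ lam x := by
    rintro x y ⟨hx, hy, ha, he⟩
    rcases hS x hx with hx | hx | hx
    · rcases hS y hy with hy | hy | hy
      · rw [lA x hx, lA y hy]
      · rw [lEA y hy]
        exact Nat.zero_le _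
      · exfalso
        rw [oA x hx, oE y (hEB hy) (dB y hy)] at he
        exact hne' ⟨y, hEB hy⟩ x (Or.inr ⟨hy, hx, ha, he⟩)
    · rcases hS y hy with hy | hy | hy
      · exfalso
        rw [oA y hy, oE x (hEA hx) (dA x hx)] at he
        exact hne' ⟨x, hEA hx⟩ y (Or.inl ⟨hx, hy, ha, he.symm⟩)
      · rw [lEA y hy]
        exact Nat.zero_le _
      · exfalso
        rw [oE x (hEA hx) (dA x hx), oE y (hEB hy) (dB y hy)] at he
        exact hbad (Or.inl ⟨⟨x, hEA hx⟩, ⟨y, hEB hy⟩, hx, hy, ha, he⟩)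
    · rw [lEB x hx]
      rcases hS y hy with hy | hy | hy
      · rw [lA y hy]
        norm_num
      · rw [lEA y hy]
        norm_num
      · rw [lEB y hy]
  have h2 := layer hR hx
  have h0 : x ∈ S := by
    obtain ⟨y, h3, _⟩ := Relation.TransGen.head'_iff.1 hx
    exact h3.1
  have inE : ∀ {E' : Finset V} (hE' : E' ⊆ EE) (hd : ∀ x ∈ E', x ∉ A)
      (hl : ∀ y ∈ S, lam y = lam x → y ∈ E'),
      ∃ x : EE, Relation.TransGen
        (fun x y : EE => x.1 ∈ E' ∧ y.1 ∈ E' ∧ adj x.1 y.1 ∧ g x = g y) x x := by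
    intro E' hE' hd hl
    obtain ⟨hx, _, h3⟩ := lift_sub (S := EE)
      (Q := fun x y : EE => x.1 ∈ E' ∧ y.1 ∈ E' ∧ adj x.1 y.1 ∧ g x = g y)
      (fun a b h => ⟨hE' (hl a h.1.1 h.2.1), hE' (hl b h.1.2.1 h.2.2)⟩)
      (fun a b ha hb h => by
        refine ⟨hl a h.1.1 h.2.1, hl b h.1.2.1 h.2.2, h.1.2.2.1, ?_⟩
        have := h.1.2.2.2
        rwa [oE a ha (hd a (hl a h.1.1 h.2.1)), oE b hb (hd b (hl b h.1.2.1 h.2.2))] at this) h2
    exact ⟨⟨x, hx⟩, h3⟩
  rcases hS x h0 with hxA | hxA | hxA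
  · -- the cycle is in `A`
    have hl : ∀ y ∈ S, lam y = lam x → y ∈ A := by
      intro y hy hlam
      rw [lA x hxA] at hlam
      rcases hS y hy with h | h | h
      · exact h
      · rw [lEA y h] at hlam
        exact absurd hlam (by norm_num)
      · rw [lEB y h] at hlam
        exact absurd hlam (by norm_num)
    have h3 : Relation.TransGen (fun x y => x ∈ A ∧ y ∈ A ∧ adj x y ∧ ω x = ω y) x x := by
      refine Relation.TransGen.mono (fun a b h => ?_) _ _ h2
      have ha := hl a h.1.1 h.2.1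
      have hb := hl b h.1.2.1 h.2.2
      have he := h.1.2.2.2
      rw [oA a ha, oA b hb] at he
      exact ⟨ha, hb, h.1.2.2.1, he⟩
    obtain ⟨y, h4, h5⟩ := Relation.TransGen.head'_iff.1 h3
    rcases Relation.reflTransGen_iff_eq_or_transGen.1 h5 with h | h
    · rw [h] at h4
      exact h1 ⟨_, h4.1, _, h4.1, h4.2.2.1, .single ⟨h4.1, h4.1, h4.2.2.1, rfl⟩⟩
    · exact h1 ⟨x, hxA, y, h4.2.1, h4.2.2.1, h⟩
  · refine hbad (Or.inr (Or.inl (inE hEA dA fun y hy hlam => ?_)))
    rw [lEA x hxA] at hlam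
    rcases hS y hy with h | h | h
    · rw [lA y h] at hlam
      exact absurd hlam (by norm_num)
    · exact h
    · rw [lEB y h] at hlam
      exact absurd hlam (by norm_num)
  · refine hbad (Or.inr (Or.inr (inE hEB dB fun y hy hlam => ?_)))
    rw [lEB x hxA] at hlam
    rcases hS y hy with h | h | h
    · rw [lA y h] at hlam
      exact absurd hlam (by norm_num)
    · rw [lEA y h] at hlam
      exact absurd hlam (by norm_num)
    · exact h

/-- the cost of one stage -/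
def QQ (w b p n : ℕ) : ℕ := LE w b p n (n ^ (b * w)) + n * (2 ^ (p * p) * 5)

theorem LE_mono {w b p n N N' : ℕ} (h : N ≤ N') : LE w b p n N ≤ LE w b p n N' := by
  unfold LE
  refine Nat.add_le_add (Nat.add_le_add le_rfl ?_) ?_
  · exact Nat.mul_le_mul_right _ (Nat.mul_le_mul_left _ h)
  · exact Nat.mul_le_mul_right _ (by omega)

open Classical in
theorem stage [Fintype V] (hrr : ∀ c c', c ≠ c' → adj (r c) (r c')) (hw : 3 ≤ w) {p b : ℕ}
    (hp : w + 1 ≤ p) (hSA : ∀ u ∈ A, SA adj r p u) (hE : E.card ≤ b)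
    (hno : NoCol w adj ((A ∪ E : Finset V) : Set V)) (κ : V → Fin w ⊕ Bool) {l : List Dig}
    (hb : Bas (w + 1) l)
    (hcl : ∀ z ∈ E, (¬ ∃ c, κ z = Sum.inl c) → ∀ c,
      Clo l (adjK adj r E (Function.update κ z (Sum.inl c)))) :
    Der (w + 1) (QQ w b p (Fintype.card V)) l (adjK adj r E κ) := by
  have hV : Nonempty V := ⟨r ⟨0, by omega⟩⟩
  let a := adjK adj r E κ
  have haa : ∀ x y, adj x y → a x y := fun x y h => Or.inl h
  have hrr' : ∀ c c', c ≠ c' → a (r c) (r c') := fun c c' h => haa _ _ (hrr c c' h)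
  let A' : Finset V := A ∪ E.filter fun z => ∃ c, κ z = Sum.inl c
  let EA : Finset V := E.filter fun z => z ∉ A' ∧ κ z = Sum.inr true
  let EB : Finset V := E.filter fun z => z ∉ A' ∧ κ z = Sum.inr false
  have hSA' : ∀ u ∈ A', SA a r p u := by
    intro u hu
    rcases Finset.mem_union.1 hu with hu | hu
    · exact (hSA u hu).adj_mono haa
    · obtain ⟨huE, c, hc⟩ := Finset.mem_filter.1 hu
      refine (SA.near (a := c) (b := c) (fun c' hc' => ?_) (fun c' hc' => ?_) hrr').mono hp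
      · exact Or.inr ⟨u, huE, by rw [hc]; exact ⟨c', hc', Or.inl ⟨rfl, rfl⟩⟩⟩
      · exact Or.inr ⟨u, huE, by rw [hc]; exact ⟨c', hc', Or.inr ⟨rfl, rfl⟩⟩⟩
  intro l1 hl1
  have hb1 : Bas (w + 1) l1 := hb.sub hl1
  have hN : Fintype.card (E × Fin w → V) ≤ Fintype.card V ^ (b * w) := by
    rw [Fintype.card_fun, Fintype.card_prod, Fintype.card_fin, Fintype.card_coe]
    exact Nat.pow_le_pow_right Fintype.card_pos (Nat.mul_le_mul_right _ hE)
  obtain ⟨l2, e2, h2⟩ := leafE (A := A') (EA := EA) (EB := EB) (EE := E) (adj := a) hrr' hb1 hw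
    hSA' hE (Finset.filter_subset _ _) (Finset.filter_subset _ _)
    (fun z hz c => by
      obtain ⟨hzE, _, hz⟩ := Finset.mem_filter.1 hz
      exact Or.inr ⟨z, hzE, by rw [hz]; exact ⟨c, rfl, rfl⟩⟩)
    (fun z hz c => by
      obtain ⟨hzE, _, hz⟩ := Finset.mem_filter.1 hz
      exact Or.inr ⟨z, hzE, by rw [hz]; exact ⟨c, rfl, rfl⟩⟩)
    (fun z hz c => by
      have hzE : z ∈ E ∧ ¬ ∃ c, κ z = Sum.inl c := by
        rcases hz with hz | hz
        · obtain ⟨h1, _, h3⟩ := Finset.mem_filter.1 hz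
          exact ⟨h1, by rw [h3]; simp⟩
        · obtain ⟨h1, _, h3⟩ := Finset.mem_filter.1 hz
          exact ⟨h1, by rw [h3]; simp⟩
      refine ((hcl z hzE.1 hzE.2 c).sub hl1).le ?_
      rintro x y (h | ⟨z', hz', h⟩)
      · exact Or.inl (haa _ _ h)
      · by_cases hzz : z' = z
        · subst hzz
          rw [Function.update_self] at h
          exact Or.inr h
        · rw [Function.update_of_ne hzz] at h
          exact Or.inl (Or.inr ⟨z', hz', h⟩))
    (no_split (S := ((A ∪ E : Finset V) : Set V)) (Finset.filter_subset _ _)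
      (Finset.filter_subset _ _) (fun x hx => (Finset.mem_filter.1 hx).2.1)
      (fun x hx => (Finset.mem_filter.1 hx).2.1)
      (fun x hx hx' => by
        have h3 := (Finset.mem_filter.1 hx).2.2
        rw [(Finset.mem_filter.1 hx').2.2] at h3
        simp at h3)
      (fun x hx => by
        rcases Finset.mem_union.1 (Finset.mem_coe.1 hx) with hx | hx
        · exact Or.inl (Finset.mem_union_left _ hx)
        · by_cases hA : x ∈ A'
          · exact Or.inl hA
          · rcases hκ : κ x with c | q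
            · exact absurd (Finset.mem_union_right _ (Finset.mem_filter.2 ⟨hx, c, hκ⟩)) hA
            · cases q
              · exact Or.inr (Or.inr (Finset.mem_filter.2 ⟨hx, hA, hκ⟩))
              · exact Or.inr (Or.inl (Finset.mem_filter.2 ⟨hx, hA, hκ⟩)))
      (hno.adj_mono haa))
  obtain ⟨l3, e3, h3⟩ := levels (adj := a) (r := r) (p := p) A' hSA' (hb1.ext e2) h2 l2 fun T h => h
  refine ⟨l3, (e2.trans e3).up ?_, ?_⟩
  · exact Nat.add_le_add (LE_mono hN) (Nat.mul_le_mul_right _ (Finset.card_le_univ A'))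
  · refine h3.hom (fun x => x fun _ => ⟨0, by omega⟩) ?_
    rintro x y (h | ⟨v, hv, _⟩)
    · exact h _
    · exact absurd hv (by simp)

open Classical in
theorem stages [Fintype V] (hrr : ∀ c c', c ≠ c' → adj (r c) (r c')) (hw : 3 ≤ w) {p b : ℕ}
    (hp : w + 1 ≤ p) (hSA : ∀ u ∈ A, SA adj r p u) (hE : E.card ≤ b)
    (hno : NoCol w adj ((A ∪ E : Finset V) : Set V)) (j : ℕ) :
    ∀ (κ : V → Fin w ⊕ Bool) {l : List Dig}, Bas (w + 1) l →
    (E.filter fun z => ¬ ∃ c, κ z = Sum.inl c).card ≤ j →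
    Der (w + 1) (QQ w b p (Fintype.card V) * (b * w + 1) ^ j) l (adjK adj r E κ) := by
  induction j with
  | zero =>
    intro κ l hb hj
    refine (stage hrr hw hp hSA hE hno κ hb fun z hz hz' => ?_).up (by simp)
    have h0 : z ∈ E.filter fun z => ¬ ∃ c, κ z = Sum.inl c := Finset.mem_filter.2 ⟨hz, hz'⟩
    rw [Finset.card_eq_zero.1 (Nat.le_zero.1 hj)] at h0
    exact absurd h0 (Finset.notMem_empty _)
  | succ j ih =>
    intro κ l hb hj l1 hl1
    let N : Finset V := E.filter fun z => ¬ ∃ c, κ z = Sum.inl c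
    let S : Finset (V × Fin w) := N ×ˢ Finset.univ
    have hS : S.card ≤ b * w := by
      rw [Finset.card_product, Finset.card_univ, Fintype.card_fin]
      exact Nat.mul_le_mul_right _ ((Finset.card_filter_le _ _).trans hE)
    obtain ⟨l2, e2, h2⟩ := der_all (k := w + 1) (l := l) S (W := fun _ => V)
      (fun q => adjK adj r E (Function.update κ q.1 (Sum.inl q.2)))
      (c := QQ w b p (Fintype.card V) * (b * w + 1) ^ j)
      (fun q hq => by
        have hqN : q.1 ∈ N := (Finset.mem_product.1 hq).1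
        refine ih _ hb ?_
        have : (E.filter fun z => ¬ ∃ c, Function.update κ q.1 (Sum.inl q.2) z = Sum.inl c).card <
            N.card := by
          refine Finset.card_lt_card (Finset.ssubset_iff_subset_ne.2 ⟨?_, ?_⟩)
          · intro z hz
            obtain ⟨hzE, hz⟩ := Finset.mem_filter.1 hz
            by_cases hzq : z = q.1
            · rw [hzq]
              exact hqN
            · rw [Function.update_of_ne hzq] at hz
              exact Finset.mem_filter.2 ⟨hzE, hz⟩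
          · intro he
            rw [← he] at hqN
            obtain ⟨_, h3⟩ := Finset.mem_filter.1 hqN
            exact h3 ⟨q.2, by rw [Function.update_self]⟩
        exact Nat.lt_succ_iff.1 (lt_of_lt_of_le this hj)) l1 hl1
    obtain ⟨l3, e3, h3⟩ := stage hrr hw hp hSA hE hno κ ((hb.sub hl1).ext e2)
      (fun z hz hz' c => h2 (z, c) (Finset.mem_product.2 ⟨Finset.mem_filter.2 ⟨hz, hz'⟩,
        Finset.mem_univ _⟩)) l2 fun T h => h
    refine ⟨l3, (e2.trans e3).up ?_, h3⟩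
    have h4 : 1 ≤ (b * w + 1) ^ j := Nat.one_le_pow _ _ (by omega)
    calc S.card * (QQ w b p (Fintype.card V) * (b * w + 1) ^ j) + QQ w b p (Fintype.card V)
        ≤ b * w * (QQ w b p (Fintype.card V) * (b * w + 1) ^ j) +
          QQ w b p (Fintype.card V) * (b * w + 1) ^ j :=
          Nat.add_le_add (Nat.mul_le_mul_right _ hS) (Nat.le_mul_of_pos_right _ h4)
      _ = QQ w b p (Fintype.card V) * (b * w + 1) ^ (j + 1) := by ring

/-- the status of a vertex -/
theorem status1 {W : Type} {M : Finset W} {Y : W → W → Prop} (hP : PreOn M Y) {z : W} (hz : z ∈ M)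
    {g : Fin w → W} (hg : ∀ c, g c ∈ M) (hgg : ∀ c c', c ≠ c' → Y (g c) (g c')) :
    (∃ c, ∀ c', c' ≠ c → Y z (g c') ∧ Y (g c') z) ∨ (∀ c, Y (g c) z) ∨ ∀ c, Y z (g c) := by
  by_contra hne
  rw [not_or, not_or] at hne
  obtain ⟨h1, h2, h3⟩ := hne
  push Not at h2 h3
  obtain ⟨a, ha⟩ := h2
  obtain ⟨b, hb⟩ := h3
  have key : ∀ a b, ¬ Y (g a) z → ¬ Y z (g b) → a = b := fun a b ha hb => by
    by_contra hab
    exact hP.2 _ (hg a) _ hz _ (hg b) ha hb (hgg _ _ hab)
  have hab := key a b ha hb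
  subst hab
  refine h1 ⟨a, fun c hc => ⟨?_, ?_⟩⟩
  · by_contra h
    exact hc (key a c ha h).symm
  · by_contra h
    exact hc (key c a h hb)

/-- the cost with exceptional vertices -/
def QE (w b p n : ℕ) : ℕ :=
  2 ^ ((b + w) * (b + w)) * (QQ w b p n * (b * w + 1) ^ b + 5)

open Classical in
theorem coreE [Fintype V] (hrr : ∀ c c', c ≠ c' → adj (r c) (r c')) (hw : 3 ≤ w) {p b : ℕ}
    (hp : w + 1 ≤ p) (hSA : ∀ u ∈ A, SA adj r p u) (hE : E.card ≤ b)
    (hno : NoCol w adj ((A ∪ E : Finset V) : Set V)) {l : List Dig} (hb : Bas (w + 1) l) :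
    Der (w + 1) (QE w b p (Fintype.card V)) l adj := by
  let M : Finset V := E ∪ Finset.univ.image r
  have hM : M.card ≤ b + w :=
    (Finset.card_union_le _ _).trans (Nat.add_le_add hE (card_img r))
  refine (lcl hb adj M (c := QQ w b p (Fintype.card V) * (b * w + 1) ^ b) fun Y hY hP => ?_).up
    (Nat.mul_le_mul (Nat.pow_le_pow_right (by norm_num) (Nat.mul_le_mul hM hM)) le_rfl)
  have hst : ∀ z ∈ E, ∃ s : Fin w ⊕ Bool, ∀ x y, stat r z s x y → Y x y := by
    intro z hz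
    rcases status1 hP (Finset.mem_union_left _ hz) (g := r)
      (fun c => Finset.mem_union_right _ (Finset.mem_image_of_mem _ (Finset.mem_univ c)))
      (fun c c' h => hY _ _ (hrr c c' h)) with ⟨c, hc⟩ | h | h
    · refine ⟨Sum.inl c, ?_⟩
      rintro x y ⟨c', hc', ⟨rfl, rfl⟩ | ⟨rfl, rfl⟩⟩
      · exact (hc c' hc').1
      · exact (hc c' hc').2
    · refine ⟨Sum.inr true, ?_⟩
      rintro x y ⟨c, rfl, rfl⟩
      exact h c
    · refine ⟨Sum.inr false, ?_⟩
      rintro x y ⟨c, rfl, rfl⟩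
      exact h c
  choose s hs using hst
  let κ : V → Fin w ⊕ Bool := fun z => if h : z ∈ E then s z h else Sum.inr true
  have hκ : ∀ z (h : z ∈ E), κ z = s z h := fun z h => by simp [κ, h]
  refine (stages hrr hw hp hSA hE hno b κ hb ((Finset.card_filter_le _ _).trans hE)).hom
    (fun x => x) ?_
  rintro x y (h | ⟨z, hz, h⟩)
  · exact hY _ _ h
  · rw [hκ z hz] at h
    exact hs z hz x y h

end HW71
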