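import Pool.Agent.HW71.Exc

/-!
# HW71/Tup : witnesses for the exceptional vertices; the last level with exceptional vertices

`EA` (status low), `EB` (status high): the exceptional vertices. For every world `ω` (a colouring of `A`) without
monochromatic cycle in `A`, each colouring `g` of them is impossible: either by itself (`BadG`) or since some exceptional
vertex `z` has an arc to (from) a vertex `u` of the colour `g z`. `t`: a choice of a vertex `u` for all `z` and all colours.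
-/

namespace HW71

open HJ71 HM71

variable {V : Type} {w : ℕ} {adj : V → V → Prop} {r : Fin w → V} {A EA EB EE : Finset V}

/-- `g` is impossible in all worlds -/
def BadG (adj : V → V → Prop) (EA EB EE : Finset V) (g : EE → Fin w) : Prop :=
  (∃ z z' : EE, z.1 ∈ EA ∧ z'.1 ∈ EB ∧ adj z.1 z'.1 ∧ g z = g z') ∨
    (∃ x : EE, Relation.TransGen
      (fun x y : EE => x.1 ∈ EA ∧ y.1 ∈ EA ∧ adj x.1 y.1 ∧ g x = g y) x x) ∨
    ∃ x : EE, Relation.TransGen
      (fun x y : EE => x.1 ∈ EB ∧ y.1 ∈ EB ∧ adj x.1 y.1 ∧ g x = g y) x x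

/-- the arc between `z` and `u` shows that `z` cannot have the colour `c` in the world `ω` -/
def Hit (adj : V → V → Prop) (A EA EB : Finset V) (z u : V) (c : Fin w) (ω : V → Fin w) : Prop :=
  (z ∈ EA ∧ u ∈ A ∧ adj z u ∧ ω u = c) ∨ (z ∈ EB ∧ u ∈ A ∧ adj u z ∧ ω u = c)

/-- `t` shows that `g` is impossible in the world `ω` -/
def Val (adj : V → V → Prop) (A EA EB EE : Finset V) (g : EE → Fin w) (t : EE × Fin w → V)
    (ω : V → Fin w) : Prop :=
  (∃ z : EE, Hit adj A EA EB z.1 (t (z, g z)) (g z) ω) ∨ BadG adj EA EB EE g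

/-- `t` shows that all `g` are impossible -/
def yt (adj : V → V → Prop) (A EA EB EE : Finset V) (t : EE × Fin w → V)
    (ω : V → Fin w) : Prop :=
  ∀ g, Val adj A EA EB EE g t ω

/-- constant for the tuples -/
def Kd (w b p : ℕ) : ℕ :=
  2 ^ ((w ^ (2 * w ^ (b * w)) + b * w + (b + b * w * p)) *
    (w ^ (2 * w ^ (b * w)) + b * w + (b + b * w * p)))

open Classical in
theorem tup_der (hrr : ∀ c c', c ≠ c' → adj (r c) (r c')) {l : List Dig} (hb : Bas (w + 1) l)
    (hw : 3 ≤ w) {p b : ℕ} (hSA : ∀ u ∈ A, SA adj r p u) (hEE : EE.card ≤ b)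
    (hEA : EA ⊆ EE) (hEB : EB ⊆ EE)
    (dA : ∀ z ∈ EA, ∀ c, adj (r c) z) (dB : ∀ z ∈ EB, ∀ c, adj z (r c))
    (hcl : ∀ Y : ((V → Fin w) → V) → ((V → Fin w) → V) → Prop, (∀ x y, Pow w adj x y → Y x y) →
      ∀ z, (z ∈ EA ∨ z ∈ EB) → Cld Y r z → Clo l Y)
    (t : EE × Fin w → V) {a a' : Fin w} :
    Der (w + 1) (Kd w b p * 5) l (XT adj r A a a' (yt adj A EA EB EE t)) := by
  choose B hB1 hB2 hB3 hB4 using hSA
  let U : Finset V := (Finset.univ.image t).filter fun u => u ∈ A
  have hUA : U ⊆ A := fun u hu => (Finset.mem_filter.1 hu).2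
  have hUc : U.card ≤ b * w := by
    refine (Finset.card_filter_le _ _).trans (Finset.card_image_le.trans ?_)
    rw [Finset.card_univ, Fintype.card_prod, Fintype.card_fin, Fintype.card_coe]
    exact Nat.mul_le_mul_right _ hEE
  let Ex : Finset V := EE ∪ U.attach.biUnion fun u => B u.1 (hUA u.2)
  have hEx : Ex.card ≤ b + b * w * p := by
    refine (Finset.card_union_le _ _).trans (Nat.add_le_add hEE ?_)
    refine (Finset.card_biUnion_le_card_mul _ _ p fun u _ => hB1 _ _).trans ?_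
    rw [Finset.card_attach]
    exact Nat.mul_le_mul_right _ hUc
  let κ : (V → Fin w) → Prop × (U → Fin w) := fun ω => (yt adj A EA EB EE t ω, fun u => ω u)
  have hcard : Fintype.card (Prop × (U → Fin w)) ≤ 2 * w ^ (b * w) := by
    rw [Fintype.card_prod, Fintype.card_fun, Fintype.card_prop, Fintype.card_fin, Fintype.card_coe]
    exact Nat.mul_le_mul le_rfl (Nat.pow_le_pow_right (by omega) hUc)
  have hN : w ^ Fintype.card (Prop × (U → Fin w)) + U.card + Ex.card ≤
      w ^ (2 * w ^ (b * w)) + b * w + (b + b * w * p) :=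
    Nat.add_le_add (Nat.add_le_add (Nat.pow_le_pow_right (by omega) hcard) hUc) hEx
  refine (locF hrr hb hw κ (XT adj r A a a' (yt adj A EA EB EE t)) (fun _ _ h => Or.inl h) U Ex hUA
    (fun u hu => ⟨fun q => q.2 ⟨u, hu⟩, fun ω => rfl⟩) (c := 0) ?_).up
    (Nat.mul_le_mul (Nat.pow_le_pow_right (by norm_num) (Nat.mul_le_mul hN hN)) (by norm_num))
  intro Y hY ω0 M F hLS hUM hExM hFU hFn hnM
  by_cases hC : ∃ z, (z ∈ EA ∨ z ∈ EB) ∧ Cld Y r z
  · obtain ⟨z, hz, hC⟩ := hC
    exact Der.of_clo (hcl Y hLS.pow z hz hC)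
  exfalso
  have hEM : ∀ z ∈ EE, cst w z ∈ M := fun z hz => hExM z (Finset.mem_union_left _ hz)
  have hlow : ∀ z ∈ EA, Low Y r z := by
    intro z hz
    rcases hLS.status (hEM z (hEA hz)) with h | h | ⟨d, _, _, h, _⟩
    · exact absurd ⟨z, Or.inl hz, h⟩ hC
    · exact h
    · exact absurd (hLS.pow _ _ fun _ => dA z hz d) h
  have hhigh : ∀ z ∈ EB, High Y r z := by
    intro z hz
    rcases hLS.status (hEM z (hEB hz)) with h | ⟨d, _, _, h, _⟩ | h
    · exact absurd ⟨z, Or.inr hz, h⟩ hC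
    · exact absurd (hLS.pow _ _ fun _ => dB z hz d) h
    · exact h
  have hCu : ∀ u ∈ U, Cld Y r u := by
    intro u hu
    obtain ⟨c, hc⟩ := hB4 u (hUA hu) _ (fun x => cst w x) M Y (fun x hx => hExM x
      (Finset.mem_union_right _ (Finset.mem_biUnion.2 ⟨⟨u, hu⟩, Finset.mem_attach _ _, hx⟩)))
      (fun x y h => hLS.pow _ _ fun _ => h) hLS.pre hLS.free
    exact ⟨c, hc.2⟩
  -- the assertion is true in the world
  have hy : yt adj A EA EB EE t ω0 := by
    by_contra hne
    have e1 : (nm r fun ω => (fun q : Prop × (U → Fin w) => if q.1 then a else a') (κ ω)) =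
        bn r a a' (yt adj A EA EB EE t) := rfl
    have e2 := hFn fun q => if q.1 then a else a'
    rw [e1] at e2
    have e3 : F (bn r a a' (yt adj A EA EB EE t)) = a' := by
      rw [e2]
      exact if_neg hne
    have h1 : Y (bn r a a' (yt adj A EA EB EE t)) (cst w (r a')) :=
      hY _ _ (Or.inr (Or.inl ⟨rfl, rfl⟩))
    have h2 : Y (cst w (r a')) (bn r a a' (yt adj A EA EB EE t)) :=
      hY _ _ (Or.inr (Or.inr ⟨rfl, rfl⟩))
    rcases hLS.ch _ (hnM fun q => if q.1 then a else a') _ (hLS.rM a')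
      (e3.trans (hLS.Fr a').symm) with h | h
    · exact h h1
    · exact h h2
  let g : EE → Fin w := fun z => F (cst w z.1)
  have hcyc : ∀ E : Finset V, (∃ x : EE, Relation.TransGen
      (fun x y : EE => x.1 ∈ E ∧ y.1 ∈ E ∧ adj x.1 y.1 ∧ g x = g y) x x) → False := by
    rintro E ⟨x, hx⟩
    have h5 : Relation.TransGen (fun x y => x ∈ E ∩ EE ∧ y ∈ E ∩ EE ∧ adj x y ∧
        F (cst w x) = F (cst w y)) x.1 x.1 :=
      Relation.TransGen.lift (fun z : EE => z.1) (fun a b h =>
        ⟨Finset.mem_inter.2 ⟨h.1, a.2⟩, Finset.mem_inter.2 ⟨h.2.1, b.2⟩, h.2.2.1, h.2.2.2⟩) _ _ hx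
    exact hLS.cycle (fun y hy => hEM y (Finset.mem_inter.1 hy).2) h5
  rcases hy g with ⟨z, ⟨hzA, huA, ha, he⟩ | ⟨hzB, huA, ha, he⟩⟩ | hbad
  · have hu : t (z, g z) ∈ U :=
      Finset.mem_filter.2 ⟨Finset.mem_image_of_mem _ (Finset.mem_univ _), huA⟩
    exact hLS.low_out (hEM _ z.2) (hUM _ hu) (hlow _ hzA) (hCu _ hu) ha
      (he.symm.trans (hFU _ hu).symm)
  · have hu : t (z, g z) ∈ U :=
      Finset.mem_filter.2 ⟨Finset.mem_image_of_mem _ (Finset.mem_univ _), huA⟩
    exact hLS.high_in (hEM _ z.2) (hUM _ hu) (hhigh _ hzB) (hCu _ hu) ha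
      (he.symm.trans (hFU _ hu).symm)
  · rcases hbad with ⟨z, z', h1, h2, h3, h4⟩ | h | h
    · exact hLS.low_high (hEM _ z.2) (hEM _ z'.2) (hlow _ h1) (hhigh _ h2) h3 h4
    · exact hcyc EA h
    · exact hcyc EB h

open Classical in
/-- a disjunction of asserted statements -/
theorem or_chain (hrr : ∀ c c', c ≠ c' → adj (r c) (r c')) {l : List Dig} (hb : Bas (w + 1) l)
    (hw : 3 ≤ w) {I : Type} (y : I → (V → Fin w) → Prop) (P : Finset I)
    (hl : ∀ i ∈ P, ∀ a b, a ≠ b → Clo l (XT adj r A a b (y i))) :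
    ∃ l', Ext (w + 1) ((P.card + 1) * (w * w * (Kc w * 10))) l l' ∧
      ∀ a b, a ≠ b → Clo l' (XT adj r A a b fun ω => ∃ i ∈ P, y i ω) := by
  let S : Finset (Fin w × Fin w) := Finset.univ.filter fun p => p.1 ≠ p.2
  have hS : S.card ≤ w * w := by
    refine (Finset.card_filter_le _ _).trans ?_
    simp
  have hcost : S.card * (Kc w * 10) ≤ w * w * (Kc w * 10) := Nat.mul_le_mul_right _ hS
  induction P using Finset.induction_on with
  | empty =>
    obtain ⟨l', e, h⟩ := der_all (k := w + 1) (l := l) S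
      (W := fun _ => (V → Fin w) → V)
      (fun p => XT adj r A p.1 p.2 fun ω => ∃ i ∈ (∅ : Finset I), y i ω) (c := Kc w * 10)
      (fun p hp => by
        refine loc2 hrr hb hw ![fun ω => ∃ i ∈ (∅ : Finset I), y i ω, fun _ => False,
          fun _ => False, fun _ => False] ∅
          (by simp) (by simp) _ (fun _ _ h => Or.inl h) (c := 5) fun Y hY ω0 _ h2 _ => ?_
        exfalso
        obtain ⟨e, he, _⟩ : ∃ i ∈ (∅ : Finset I), y i ω0 :=
          h2 0 p.1 p.2 (Finset.mem_filter.1 hp).2 fun p q hpq => hY _ _ (Or.inr hpq)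
        simp at he) l fun T h => h
    refine ⟨l', e.up ?_, fun a b hab => h (a, b) (by simp [S, hab])⟩
    simpa using hcost
  | insert e P heP ih =>
    obtain ⟨l1, e1, h1⟩ := ih fun i hi => hl i (Finset.mem_insert_of_mem hi)
    rw [Finset.card_insert_of_notMem heP]
    obtain ⟨l', e', h⟩ := der_all (k := w + 1) (l := l1) S
      (W := fun _ => (V → Fin w) → V)
      (fun p => XT adj r A p.1 p.2 fun ω => ∃ i ∈ insert e P, y i ω)
      (c := Kc w * 10) (fun p hp => by
        refine loc2 hrr (hb.ext e1) hw ![fun ω => ∃ i ∈ insert e P, y i ω,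
          fun ω => ∃ i ∈ P, y i ω, y e, fun _ => False] ∅ (by simp) (by simp) _
          (fun _ _ h => Or.inl h) (c := 5) fun Y hY ω0 h1' h2 _ => ?_
        obtain ⟨f, hf, h3⟩ : ∃ i ∈ insert e P, y i ω0 :=
          h2 0 p.1 p.2 (Finset.mem_filter.1 hp).2 fun p q hpq => hY _ _ (Or.inr hpq)
        rcases Finset.mem_insert.1 hf with rfl | hf
        · obtain ⟨a, b, hab, h5⟩ := h1' 2 h3
          refine (Der.of_clo (((hl f (Finset.mem_insert_self _ _) a b hab).sub e1.1).le ?_)).up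
            (Nat.zero_le _)
          rintro p q (h | h)
          · exact hY _ _ (Or.inl h)
          · exact h5 _ _ h
        · obtain ⟨a, b, hab, h5⟩ := h1' 1 ⟨f, hf, h3⟩
          refine (Der.of_clo ((h1 a b hab).le ?_)).up (Nat.zero_le _)
          rintro p q (h | h)
          · exact hY _ _ (Or.inl h)
          · exact h5 _ _ h) l1 fun T h => h
    refine ⟨l', (e1.trans e').up ?_, fun a b hab => h (a, b) (by simp [S, hab])⟩
    rw [Nat.add_mul (P.card + 1) 1, one_mul]
    exact Nat.add_le_add_left hcost _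

end HW71
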